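import Pool.Graph.R_seed8.Helper472.Lat_CST1
import Pool.Graph.R_seed8.Helper472.Lat_CST2

set_option autoImplicit false

/-!
# Descending chain condition for closed subgroups of a unitary group
-/

open Set Filter Topology Pool.LatH472

namespace Pool.Agent.H746.GD

/-- The unitary group. -/
abbrev UU (n : ℕ) : Type := Matrix.unitaryGroup (Fin n) ℂ

instance compactUU (n : ℕ) : CompactSpace (UU n) := by
  have hcl : IsClosed ((Matrix.unitaryGroup (Fin n) ℂ : Submonoid (Matrix (Fin n) (Fin n) ℂ)) :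
      Set (Matrix (Fin n) (Fin n) ℂ)) := by
    have h1 : ((Matrix.unitaryGroup (Fin n) ℂ : Submonoid (Matrix (Fin n) (Fin n) ℂ)) :
      Set (Matrix (Fin n) (Fin n) ℂ)) = {A | star A * A = 1} := by
      ext A
      exact Matrix.mem_unitaryGroup_iff'
    rw [h1]
    exact isClosed_eq (by fun_prop) continuous_const
  have hcpt : IsCompact (Set.pi Set.univ fun _ : Fin n => Set.pi Set.univ fun _ : Fin n =>
      Metric.closedBall (0 : ℂ) 1) :=
    isCompact_univ_pi fun _ => isCompact_univ_pi fun _ => isCompact_closedBall 0 1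
  exact isCompact_iff_compactSpace.1 (hcpt.of_isClosed_subset hcl
    (fun A hA i _ j _ => by simpa using entry_norm_bound_of_unitary hA i j))

instance secondCountableUU (n : ℕ) : SecondCountableTopology (UU n) := by
  have h1 : SecondCountableTopology (Matrix (Fin n) (Fin n) ℂ) :=
    (inferInstance : SecondCountableTopology (Fin n → Fin n → ℂ))
  exact IsInducing.subtypeVal.secondCountableTopology

/-- the Lie algebra as a real subspace -/
noncomputable def lieSub {n : ℕ} (L : Subgroup (UU n)) (hL : IsClosed (L : Set (UU n))) :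
    Submodule ℝ (Matrix (Fin n) (Fin n) ℂ) where
  carrier := LieAlg L
  add_mem' := fun {X Y} hX hY => (CST1 (Fin n) L hL X hX Y hY).1
  zero_mem' := ⟨by simp, fun t => ⟨1, one_mem _, by simp [NormedSpace.exp_zero]⟩⟩
  smul_mem' := by
    rintro c X ⟨h1, h2⟩
    refine ⟨?_, fun t => ?_⟩
    · rw [Matrix.conjTranspose_smul, h1]
      simp
    · obtain ⟨u, hu, hu'⟩ := h2 (t * c)
      exact ⟨u, hu, by rw [hu', mul_smul]⟩

theorem lieSub_mono {n : ℕ} {L L' : Subgroup (UU n)} (hL : IsClosed (L : Set (UU n)))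
    (hL' : IsClosed (L' : Set (UU n))) (h : L ≤ L') : lieSub L hL ≤ lieSub L' hL' := by
  rintro X ⟨h1, h2⟩
  refine ⟨h1, fun t => ?_⟩
  obtain ⟨u, hu, hu'⟩ := h2 t
  exact ⟨u, h hu, hu'⟩

theorem dcc {n : ℕ} (F : Set (Subgroup (UU n))) (hne : F.Nonempty)
    (hcl : ∀ L ∈ F, IsClosed (L : Set (UU n))) :
    ∃ L ∈ F, ∀ L' ∈ F, L' ≤ L → L' = L := by
  classical
  -- minimise the dimension
  let dim : F → ℕ := fun L => Module.finrank ℝ (lieSub L.1 (hcl L.1 L.2))
  have : Nonempty F := hne.to_subtype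
  obtain ⟨L₀, hL₀⟩ : ∃ L₀ : F, ∀ L : F, dim L₀ ≤ dim L :=
    ⟨Function.argmin dim, fun L => Function.argmin_le dim L⟩
  have heq : ∀ L : F, L.1 ≤ L₀.1 → lieSub L.1 (hcl L.1 L.2) = lieSub L₀.1 (hcl L₀.1 L₀.2) := by
    intro L hL
    have : FiniteDimensional ℝ (Matrix (Fin n) (Fin n) ℂ) := inferInstance
    exact Submodule.eq_of_le_of_finrank_le (lieSub_mono _ _ hL) (hL₀ L)
  obtain ⟨O, hO, hOL⟩ := CST2 CST1 (Fin n) L₀.1 (hcl L₀.1 L₀.2) univ univ_mem
  -- the open subgroup generated by the small elements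
  let M : Subgroup (UU n) := Subgroup.closure ((L₀.1 : Set (UU n)) ∩ O)
  have hML₀ : M ≤ L₀.1 := (Subgroup.closure_le _).2 inter_subset_left
  have hML : ∀ L : F, L.1 ≤ L₀.1 → M ≤ L.1 := by
    intro L hL
    refine (Subgroup.closure_le _).2 ?_
    rintro u ⟨hu, huO⟩
    obtain ⟨X, hX, -, hXu⟩ := hOL u hu huO
    have hX' : X ∈ lieSub L.1 (hcl L.1 L.2) := by rw [heq L hL]; exact hX
    obtain ⟨u', hu', huu⟩ := hX'.2 1
    have : u' = u := by
      apply Subtype.ext
      rw [huu, one_smul, hXu]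
    rw [← this]
    exact hu'
  have hidx : M.relIndex L₀.1 ≠ 0 := by
    have hopen : IsOpen ((M.subgroupOf L₀.1 : Subgroup L₀.1) : Set L₀.1) := by
      apply Subgroup.isOpen_of_mem_nhds (g := 1)
      have h1 : (Subtype.val : L₀.1 → UU n) ⁻¹' O ∈ 𝓝 (1 : L₀.1) :=
        continuous_subtype_val.continuousAt.preimage_mem_nhds hO
      refine mem_of_superset h1 ?_
      intro u hu
      exact Subgroup.subset_closure ⟨u.2, hu⟩
    have : CompactSpace L₀.1 := isCompact_iff_compactSpace.1 (hcl L₀.1 L₀.2).isCompact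
    have hfin : Finite (L₀.1 ⧸ M.subgroupOf L₀.1) := Subgroup.quotient_finite_of_isOpen _ hopen
    have : (M.subgroupOf L₀.1).FiniteIndex := Subgroup.finiteIndex_of_finite_quotient
    exact this.index_ne_zero
  -- minimise the index over M
  let F' : Set (Subgroup (UU n)) := {L | L ∈ F ∧ L ≤ L₀.1}
  have hne' : Nonempty F' := ⟨⟨L₀.1, L₀.2, le_rfl⟩⟩
  let idx : F' → ℕ := fun L => M.relIndex L.1
  obtain ⟨L₁, hL₁⟩ : ∃ L₁ : F', ∀ L : F', idx L₁ ≤ idx L :=
    ⟨Function.argmin idx, fun L => Function.argmin_le idx L⟩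
  refine ⟨L₁.1, L₁.2.1, fun L' hL' hle => ?_⟩
  have hL'₀ : L' ≤ L₀.1 := hle.trans L₁.2.2
  have h1 : M.relIndex L' * L'.relIndex L₁.1 = M.relIndex L₁.1 :=
    Subgroup.relIndex_mul_relIndex _ _ _ (hML ⟨L', hL'⟩ hL'₀) hle
  have h2 : M.relIndex L₁.1 ≤ M.relIndex L' := hL₁ ⟨L', hL', hL'₀⟩
  have h3 : M.relIndex L₁.1 ≠ 0 := by
    intro h0
    have := Subgroup.relIndex_mul_relIndex M L₁.1 L₀.1 (hML ⟨L₁.1, L₁.2.1⟩ L₁.2.2) L₁.2.2
    rw [h0, zero_mul] at this
    exact hidx this.symm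
  have h4 : L'.relIndex L₁.1 = 1 := by
    have h5 : L'.relIndex L₁.1 ≤ 1 := by
      by_contra hcon
      push Not at hcon
      have h6 : M.relIndex L' ≠ 0 := by
        intro h0
        rw [h0, zero_mul] at h1
        exact h3 h1.symm
      have h7 : M.relIndex L' * 2 ≤ M.relIndex L' * L'.relIndex L₁.1 := Nat.mul_le_mul_left _ hcon
      omega
    have h6 : L'.relIndex L₁.1 ≠ 0 := by
      intro h0
      rw [h0, mul_zero] at h1
      exact h3 h1.symm
    omega
  exact le_antisymm hle (Subgroup.relIndex_eq_one.1 h4)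

end Pool.Agent.H746.GD
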