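import Pool.Agent.H746.GD.Om
import Pool.Agent.H746.GD.PW
import Pool.Agent.H746.GD.Dcc

set_option autoImplicit false

/-!
# A long chain of representations of a non-metrizable compact group
-/

open Cardinal Set Filter Topology

universe u

namespace Pool.Agent.H746.GD

/-- continuous representations -/
abbrev Rp (G : Type u) [Group G] [TopologicalSpace G] : Type u :=
  Σ n : ℕ, {ρ : G →* UU n // Continuous ρ}

variable {G : Type u} [Group G] [TopologicalSpace G]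

/-- the common kernel of the representations before `a` -/
def NN (R : Om → Rp G) (a : Om) : Subgroup G where
  carrier := {g | ∀ γ < a, (R γ).2.1 g = 1}
  one_mem' := fun γ _ => map_one _
  mul_mem' := fun {x y} hx hy γ hγ => by rw [map_mul, hx γ hγ, hy γ hγ, one_mul]
  inv_mem' := fun {x} hx γ hγ => by rw [map_inv, hx γ hγ, inv_one]

theorem mem_NN {R : Om → Rp G} {a : Om} {g : G} : g ∈ NN R a ↔ ∀ γ < a, (R γ).2.1 g = 1 := Iff.rfl

theorem NN_anti (R : Om → Rp G) {a b : Om} (h : b ≤ a) : NN R a ≤ NN R b :=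
  fun _ hg γ hγ => hg γ (hγ.trans_le h)

theorem isClosed_NN (R : Om → Rp G) (a : Om) : IsClosed (NN R a : Set G) := by
  have : (NN R a : Set G) = ⋂ γ : Iio a, {g | (R γ).2.1 g = 1} := by
    ext g
    simp [mem_NN]
  rw [this]
  exact isClosed_iInter fun γ => isClosed_singleton.preimage (R γ).2.2

variable [IsTopologicalGroup G] [CompactSpace G] [T2Space G]

theorem secondCountable_of_inj {J : Type} [Countable J] (R : J → Rp G)
    (h : ∀ g : G, (∀ j, (R j).2.1 g = 1) → g = 1) : SecondCountableTopology G := by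
  let φ : G →* ((j : J) → UU (R j).1) := MonoidHom.pi fun j => (R j).2.1
  have hφc : Continuous φ := continuous_pi fun j => (R j).2.2
  have hφi : Function.Injective φ := by
    rw [injective_iff_map_eq_one]
    intro g hg
    exact h g fun j => congrFun hg j
  exact (hφc.isClosedEmbedding hφi).isEmbedding.secondCountableTopology

theorem exists_chain (hG : ¬ SecondCountableTopology G) :
    ∃ R : Om → Rp G, ∀ a, ∃ g ∈ NN R a, (R a).2.1 g ≠ 1 := by
  classical
  have key : ∀ (a : Om) (f : ∀ γ, γ < a → Rp G), ∃ r : Rp G, ∃ g : G,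
      (∀ γ hγ, (f γ hγ).2.1 g = 1) ∧ r.2.1 g ≠ 1 := by
    intro a f
    by_contra hcon
    push Not at hcon
    apply hG
    have : Countable (Iio a) := (countable_Iio a)
    refine secondCountable_of_inj (fun γ : Iio a => f γ.1 γ.2) (fun g hg => ?_)
    by_contra hg1
    obtain ⟨n, ρ, hρ, hρg⟩ := PW.exists_unitary_ne_one G g hg1
    exact hρg (hcon ⟨n, ρ, hρ⟩ g fun γ hγ => hg ⟨γ, hγ⟩)
  choose F hF using key
  let R : Om → Rp G := IsWellFounded.fix (· < ·) F
  have hR : ∀ a, R a = F a (fun γ _ => R γ) := fun a => IsWellFounded.fix_eq _ _ _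
  refine ⟨R, fun a => ?_⟩
  obtain ⟨g, hg, hg1⟩ := hF a (fun γ _ => R γ)
  refine ⟨g, fun γ hγ => hg γ hγ, ?_⟩
  rw [hR a]
  exact hg1

theorem exists_stab (R : Om → Rp G) (a : Om) (h0 : ∃ γ, γ < a)
    (hlim : ∀ γ < a, ∃ γ' < a, γ < γ') :
    ∃ γ < a, (NN R γ).map (R a).2.1 = (NN R a).map (R a).2.1 := by
  obtain ⟨γ₁, hγ₁⟩ := h0
  let ρ := (R a).2.1
  have hρ : Continuous ρ := (R a).2.2
  obtain ⟨L, ⟨γ₀, hγ₀, rfl⟩, hmin⟩ := dcc {L | ∃ γ < a, L = (NN R γ).map ρ} ⟨_, γ₁, hγ₁, rfl⟩ (by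
    rintro _ ⟨γ, -, rfl⟩
    exact ((isClosed_NN R γ).isCompact.image hρ).isClosed)
  refine ⟨γ₀, hγ₀, le_antisymm ?_ (Subgroup.map_mono (NN_anti R hγ₀.le))⟩
  rintro y hy
  have hne : Nonempty (Iio a) := ⟨⟨γ₀, hγ₀⟩⟩
  have h1 : (⋂ γ : Iio a, {g : G | g ∈ NN R γ.1 ∧ ρ g = y}).Nonempty := by
    apply IsCompact.nonempty_iInter_of_directed_nonempty_isCompact_isClosed
    · intro γ γ'
      refine ⟨max γ γ', fun g hg => ?_, fun g hg => ?_⟩
      · exact ⟨NN_anti R (show γ.1 ≤ (max γ γ').1 from le_max_left γ γ') hg.1, hg.2⟩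
      · exact ⟨NN_anti R (show γ'.1 ≤ (max γ γ').1 from le_max_right γ γ') hg.1, hg.2⟩
    · rintro ⟨γ, hγ⟩
      have hle : (NN R (max γ γ₀)).map ρ = (NN R γ₀).map ρ :=
        hmin _ ⟨max γ γ₀, max_lt hγ hγ₀, rfl⟩ (Subgroup.map_mono (NN_anti R (le_max_right _ _)))
      have hy' : y ∈ (NN R (max γ γ₀)).map ρ := by rw [hle]; exact hy
      obtain ⟨g, hg, hgy⟩ := hy'
      exact ⟨g, NN_anti R (le_max_left _ _) hg, hgy⟩
    · rintro ⟨γ, hγ⟩
      exact (((isClosed_NN R γ).inter (isClosed_singleton.preimage hρ))).isCompact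
    · rintro ⟨γ, hγ⟩
      exact ((isClosed_NN R γ).inter (isClosed_singleton.preimage hρ))
  obtain ⟨g, hg⟩ := h1
  rw [mem_iInter] at hg
  refine ⟨g, ?_, (hg ⟨γ₀, hγ₀⟩).2⟩
  intro γ hγ
  obtain ⟨γ', hγ', hγγ'⟩ := hlim γ hγ
  exact (hg ⟨γ', hγ'⟩).1 γ hγγ'

/-- An unbounded set of indices on which the image of a fixed tail kernel is constant. -/
theorem exists_level (R : Om → Rp G) :
    ∃ β : Om, ∀ γ, ∃ a, γ < a ∧ β < a ∧ (NN R β).map (R a).2.1 = (NN R a).map (R a).2.1 := by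
  classical
  have h1 : ∀ a : Om, ∃ f : Om, (∃ γ, γ < a) → (∀ γ < a, ∃ γ' < a, γ < γ') →
      f < a ∧ (NN R f).map (R a).2.1 = (NN R a).map (R a).2.1 := by
    intro a
    by_cases h : (∃ γ, γ < a) ∧ (∀ γ < a, ∃ γ' < a, γ < γ')
    · obtain ⟨γ, hγ, hγ'⟩ := exists_stab R a h.1 h.2
      exact ⟨γ, fun _ _ => ⟨hγ, hγ'⟩⟩
    · exact ⟨a, fun h0 h1 => absurd ⟨h0, h1⟩ h⟩
  choose f hf using h1
  obtain ⟨β, hβ⟩ := exists_fibre f (fun a h0 h1 => (hf a h0 h1).1)
  refine ⟨β, fun γ => ?_⟩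
  obtain ⟨a, ha, hlim, hfa⟩ := hβ (max γ β)
  have hγa : γ < a := (le_max_left _ _).trans_lt ha
  have hβa : β < a := (le_max_right _ _).trans_lt ha
  obtain ⟨h2, h3⟩ := hf a ⟨γ, hγa⟩ hlim
  refine ⟨a, hγa, hβa, le_antisymm ?_ (Subgroup.map_mono (NN_anti R hβa.le))⟩
  rw [← h3]
  exact Subgroup.map_mono (NN_anti R hfa)

/-- Transport of a representation to a fixed dimension. -/
def castR (r : Rp G) {n : ℕ} (h : r.1 = n) : G →* UU n := h ▸ r.2.1

omit [IsTopologicalGroup G] [CompactSpace G] [T2Space G] in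
theorem castR_cont (r : Rp G) {n : ℕ} (h : r.1 = n) : Continuous (castR r h) := by
  subst h
  exact r.2.2

omit [IsTopologicalGroup G] [CompactSpace G] [T2Space G] in
theorem castR_eq_one (r : Rp G) {n : ℕ} (h : r.1 = n) (g : G) :
    castR r h g = 1 ↔ r.2.1 g = 1 := by
  subst h
  rfl

omit [IsTopologicalGroup G] [CompactSpace G] [T2Space G] in
theorem castR_map (r : Rp G) {n : ℕ} (h : r.1 = n) (N N' : Subgroup G)
    (hN : N.map r.2.1 = N'.map r.2.1) : N.map (castR r h) = N'.map (castR r h) := by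
  subst h
  exact hN

/-- The structure extracted from a non-metrizable compact group. -/
theorem exists_family (hG : ¬ SecondCountableTopology G) :
    ∃ (n : ℕ) (T : Type) (_ : LinearOrder T) (J : Type) (_ : Countable J) (R : J → Rp G)
      (ρ : T → G →* UU n) (N : Subgroup G) (M : T → Subgroup G),
      ¬ (univ : Set T).Countable ∧ (∀ g, g ∈ N ↔ ∀ j, (R j).2.1 g = 1) ∧
      (∀ a, Continuous (ρ a)) ∧ (∀ a, M a ≤ N) ∧ (∀ a b, b < a → ∀ g ∈ M a, ρ b g = 1) ∧
      (∀ a, N.map (ρ a) = (M a).map (ρ a)) ∧ (∀ a, ∃ g ∈ N, ρ a g ≠ 1) := by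
  classical
  obtain ⟨R, hR⟩ := exists_chain hG
  obtain ⟨β, hβ⟩ := exists_level R
  let S : Set Om := {a | β < a ∧ (NN R β).map (R a).2.1 = (NN R a).map (R a).2.1}
  have hS : ¬ S.Countable := by
    intro hc
    obtain ⟨b, hb⟩ := exists_gt S hc
    obtain ⟨a, ha, haβ, haN⟩ := hβ b
    exact absurd (hb a ⟨haβ, haN⟩) (not_lt.2 ha.le)
  obtain ⟨n, hn⟩ : ∃ n : ℕ, ¬ (S ∩ {a | (R a).1 = n}).Countable := by
    by_contra hcon
    push Not at hcon
    apply hS
    apply (countable_iUnion hcon).mono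
    intro a ha
    exact mem_iUnion.2 ⟨(R a).1, ha, rfl⟩
  let T : Type := {a : Om // a ∈ S ∩ {a | (R a).1 = n}}
  have hcJ : Countable (Iio β) := countable_Iio β
  refine ⟨n, T, inferInstance, Iio β, hcJ, fun j => R j.1, fun a => castR (R a.1) a.2.2,
    NN R β, fun a => NN R a.1, ?_, ?_, ?_, ?_, ?_, ?_, ?_⟩
  · intro h
    apply hn
    rw [countable_univ_iff] at h
    exact h
  · intro g
    exact ⟨fun hg j => hg j.1 j.2, fun hg γ hγ => hg ⟨γ, hγ⟩⟩
  · intro a
    exact castR_cont _ _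
  · intro a
    exact NN_anti R a.2.1.1.le
  · intro a b hba g hg
    rw [castR_eq_one]
    exact hg b.1 hba
  · intro a
    exact castR_map _ _ _ _ a.2.1.2
  · intro a
    have h1 : NN R a.1 ≤ NN R β := NN_anti R a.2.1.1.le
    obtain ⟨g, hg, hg1⟩ := hR a.1
    refine ⟨g, h1 hg, ?_⟩
    rw [Ne, castR_eq_one]
    exact hg1

/-- Joint surjectivity. -/
theorem joint_surj {n : ℕ} {T : Type} [LinearOrder T] (ρ : T → G →* UU n) (N : Subgroup G)
    (hN : IsClosed (N : Set G)) (M : T → Subgroup G) (hρ : ∀ a, Continuous (ρ a))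
    (hM : ∀ a, M a ≤ N) (hM1 : ∀ a b, b < a → ∀ g ∈ M a, ρ b g = 1)
    (hNM : ∀ a, N.map (ρ a) = (M a).map (ρ a)) (v : T → UU n) (hv : ∀ a, v a ∈ N.map (ρ a)) :
    ∃ g ∈ N, ∀ a, ρ a g = v a := by
  classical
  have hfin : ∀ F : Finset T, ∃ g ∈ N, ∀ a ∈ F, ρ a g = v a := by
    intro F
    induction F using Finset.induction_on_max with
    | empty => exact ⟨1, one_mem _, by simp⟩
    | insert a F hF ih =>
      obtain ⟨g, hg, hgF⟩ := ih
      have h1 : (ρ a g)⁻¹ * v a ∈ (M a).map (ρ a) := by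
        rw [← hNM a]
        exact mul_mem (inv_mem ⟨g, hg, rfl⟩) (hv a)
      obtain ⟨h, hh, hha⟩ := h1
      refine ⟨g * h, mul_mem hg (hM a hh), fun b hb => ?_⟩
      rw [Finset.mem_insert] at hb
      rcases hb with rfl | hb
      · rw [map_mul, hha, mul_inv_cancel_left]
      · rw [map_mul, hM1 a b (hF b hb) h hh, mul_one, hgF b hb]
  have h1 : (⋂ F : Finset T, {g : G | g ∈ N ∧ ∀ a ∈ F, ρ a g = v a}).Nonempty := by
    have hcl : ∀ F : Finset T, IsClosed {g : G | g ∈ N ∧ ∀ a ∈ F, ρ a g = v a} := by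
      intro F
      have : {g : G | g ∈ N ∧ ∀ a ∈ F, ρ a g = v a} = (N : Set G) ∩ ⋂ a ∈ F, {g | ρ a g = v a} := by
        ext g
        simp
      rw [this]
      exact hN.inter (isClosed_biInter fun a _ => isClosed_singleton.preimage (hρ a))
    apply IsCompact.nonempty_iInter_of_directed_nonempty_isCompact_isClosed
    · intro F F'
      refine ⟨F ∪ F', fun g hg => ⟨hg.1, fun a ha => hg.2 a (Finset.mem_union_left _ ha)⟩,
        fun g hg => ⟨hg.1, fun a ha => hg.2 a (Finset.mem_union_right _ ha)⟩⟩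
    · intro F
      obtain ⟨g, hg, hgF⟩ := hfin F
      exact ⟨g, hg, hgF⟩
    · intro F
      exact (hcl F).isCompact
    · exact hcl
  obtain ⟨g, hg⟩ := h1
  rw [mem_iInter] at hg
  exact ⟨g, (hg ∅).1, fun a => (hg {a}).2 a (Finset.mem_singleton_self a)⟩

end Pool.Agent.H746.GD
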