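import Mathlib

set_option autoImplicit false

/-!
# Injective choice functions and a Bernstein type injection
-/

open Cardinal Set

namespace Pool.Agent.H746.GD

universe u

/-- If each set `A t` has at least as many elements as the index set, then there is an injective
choice function. -/
theorem exists_inj_choice {T S : Type u} (A : T → Set S) (h : ∀ t, #T ≤ #(A t)) :
    ∃ f : T → S, Function.Injective f ∧ ∀ t, f t ∈ A t := by
  classical
  let o := (#T).ord
  have hcard : #o.ToType = #T := by simp [o]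
  obtain ⟨e⟩ : Nonempty (T ≃ o.ToType) := Cardinal.eq.1 hcard.symm
  have key : ∀ (i : o.ToType) (f : ∀ j, j < i → S), ∃ s ∈ A (e.symm i), ∀ j hj, f j hj ≠ s := by
    intro i f
    by_contra hcon
    push Not at hcon
    have h1 : A (e.symm i) ⊆ Set.range (fun j : Iio i => f j.1 j.2) := by
      intro s hs
      obtain ⟨j, hj, hjs⟩ := hcon s hs
      exact ⟨⟨j, hj⟩, hjs⟩
    have h2 : #(A (e.symm i)) ≤ #(Iio i) := (Cardinal.mk_le_mk_of_subset h1).trans Cardinal.mk_range_le
    have h3 : #(Iio i) < #T := Cardinal.mk_Iio_toType_ord_lt i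
    exact absurd ((h _).trans h2) (not_le.2 h3)
  choose F hFA hFne using key
  let g : o.ToType → S := IsWellFounded.fix (· < ·) F
  have hg : ∀ i, g i = F i (fun j _ => g j) := fun i => IsWellFounded.fix_eq _ _ _
  refine ⟨fun t => g (e t), ?_, ?_⟩
  · have hlt : ∀ i j : o.ToType, j < i → g j ≠ g i := by
      intro i j hji
      rw [hg i]
      exact hFne i (fun j _ => g j) j hji
    intro a b hab
    by_contra hne
    have hne' : e a ≠ e b := fun h => hne (e.injective h)
    rcases lt_or_gt_of_ne hne' with h1 | h1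
    · exact hlt _ _ h1 hab
    · exact hlt _ _ h1 hab.symm
  · intro t
    have := hFA (e t) (fun j _ => g j)
    rw [← hg, e.symm_apply_apply] at this
    exact this

instance polishCantor : PolishSpace (ℕ → Bool) := by
  have : TopologicalSpace.IsCompletelyMetrizableSpace (ℕ → Bool) := by
    letI := (inferInstance : CompactSpace (ℕ → Bool))
    letI := TopologicalSpace.metrizableSpaceMetric (ℕ → Bool)
    infer_instance
  infer_instance

/-- An injection of a set of at most continuum many elements into the Cantor space, whose range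
has no uncountable compact subset. -/
theorem exists_bernstein (X : Type) (hX : #X ≤ 𝔠) :
    ∃ r : X → (ℕ → Bool), Function.Injective r ∧
      ∀ K : Set (ℕ → Bool), IsCompact K → K ⊆ Set.range r → K.Countable := by
  classical
  let E : Type := {K : Set (ℕ → Bool) // IsClosed K ∧ ¬ K.Countable}
  have hE : #E ≤ 𝔠 := by
    obtain ⟨b, hbc, -, hb⟩ := TopologicalSpace.exists_countable_basis (ℕ → Bool)
    have : Countable b := hbc
    let φ : E → Set b := fun K => {s | Disjoint (s : Set (ℕ → Bool)) K.1}
    have hφ : Function.Injective φ := by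
      intro K L hKL
      apply Subtype.ext
      have h1 : ∀ K : E, K.1ᶜ = ⋃₀ {s ∈ b | s ⊆ K.1ᶜ} :=
        fun K => hb.open_eq_sUnion' K.2.1.isOpen_compl
      have h2 : {s ∈ b | s ⊆ K.1ᶜ} = {s ∈ b | s ⊆ L.1ᶜ} := by
        ext s
        constructor
        · rintro ⟨hs, hsK⟩
          have : (⟨s, hs⟩ : b) ∈ φ K := Set.subset_compl_iff_disjoint_right.1 hsK
          rw [hKL] at this
          exact ⟨hs, Set.subset_compl_iff_disjoint_right.2 this⟩
        · rintro ⟨hs, hsK⟩
          have : (⟨s, hs⟩ : b) ∈ φ L := Set.subset_compl_iff_disjoint_right.1 hsK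
          rw [← hKL] at this
          exact ⟨hs, Set.subset_compl_iff_disjoint_right.2 this⟩
      have h3 : K.1ᶜ = L.1ᶜ := by rw [h1 K, h1 L, h2]
      exact compl_injective h3
    calc #E ≤ #(Set b) := Cardinal.mk_le_of_injective hφ
      _ = 2 ^ #b := Cardinal.mk_set
      _ ≤ 2 ^ ℵ₀ := Cardinal.power_le_power_left two_ne_zero (Cardinal.mk_le_aleph0)
      _ = 𝔠 := Cardinal.two_power_aleph0
  have hT : #(X ⊕ E) ≤ 𝔠 := by
    rw [Cardinal.mk_sum]
    simp only [Cardinal.lift_id]
    exact Cardinal.add_le_of_le Cardinal.aleph0_le_continuum hX hE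
  have hC : #(ℕ → Bool) = 𝔠 := by simp
  let A : X ⊕ E → Set (ℕ → Bool) := Sum.elim (fun _ => Set.univ) (fun K => K.1)
  have hA : ∀ t, #(X ⊕ E) ≤ #(A t) := by
    rintro (x | K)
    · have : #(A (Sum.inl x)) = 𝔠 := by
        show #(Set.univ : Set (ℕ → Bool)) = 𝔠
        rw [Cardinal.mk_univ, hC]
      rw [this]; exact hT
    · have h1 : 𝔠 ≤ #(A (Sum.inr K)) := by
        obtain ⟨f, hfK, -, hfi⟩ := K.2.1.exists_nat_bool_injection_of_not_countable K.2.2
        have h2 : #(Set.range f) = 𝔠 := by rw [Cardinal.mk_range_eq f hfi, hC]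
        rw [← h2]
        exact Cardinal.mk_le_mk_of_subset hfK
      exact hT.trans h1
  obtain ⟨f, hf, hfA⟩ := exists_inj_choice A hA
  refine ⟨fun x => f (Sum.inl x), fun a b h => Sum.inl_injective (hf h), ?_⟩
  intro K hK hKr
  by_contra hcon
  have h1 : f (Sum.inr ⟨K, hK.isClosed, hcon⟩) ∈ K := hfA (Sum.inr ⟨K, hK.isClosed, hcon⟩)
  obtain ⟨x, hx⟩ := hKr h1
  exact absurd (hf hx) (by simp)

end Pool.Agent.H746.GD
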