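import Mathlib

set_option autoImplicit false

/-!
# Words: supports, continuity of evaluation, interpolation on the Cantor space
-/

open Set Filter Topology

namespace Pool.Agent.H746.GD

/-- The Cantor space. -/
abbrev Cn : Type := ℕ → Bool

theorem exists_support {α : Type*} (W : FreeGroup α) :
    ∃ F : Finset α, ∀ (β : Type) (f : β → α), (∀ a ∈ F, a ∈ range f) →
      W ∈ (FreeGroup.map f).range := by
  classical
  induction W using FreeGroup.induction_on with
  | C1 => exact ⟨∅, fun β f _ => one_mem _⟩
  | of a =>
    refine ⟨{a}, fun β f h => ?_⟩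
    obtain ⟨b, hb⟩ := h a (by simp)
    exact ⟨FreeGroup.of b, by simp [hb]⟩
  | inv_of a h =>
    obtain ⟨F, hF⟩ := h
    exact ⟨F, fun β f h => inv_mem (hF β f h)⟩
  | mul x y hx hy =>
    obtain ⟨F, hF⟩ := hx
    obtain ⟨F', hF'⟩ := hy
    refine ⟨F ∪ F', fun β f h => mul_mem (hF β f fun a ha => h a ?_) (hF' β f fun a ha => h a ?_)⟩
    · exact Finset.mem_union_left _ ha
    · exact Finset.mem_union_right _ ha

theorem lift_map {α β H : Type*} [Group H] (f : β → α) (g : α → H) (w : FreeGroup β) :
    FreeGroup.lift g (FreeGroup.map f w) = FreeGroup.lift (fun b => g (f b)) w := by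
  induction w using FreeGroup.induction_on with
  | C1 => simp
  | of a => simp
  | inv_of a h => simp
  | mul x y hx hy => simp only [map_mul, hx, hy]

theorem tendsto_lift {ι α U : Type*} [Group U] [TopologicalSpace U] [IsTopologicalGroup U]
    (l : Filter ι) (F : ι → α → U) (F₀ : α → U) (h : ∀ a, Tendsto (fun i => F i a) l (𝓝 (F₀ a)))
    (w : FreeGroup α) :
    Tendsto (fun i => FreeGroup.lift (F i) w) l (𝓝 (FreeGroup.lift F₀ w)) := by
  induction w using FreeGroup.induction_on with
  | C1 => simpa using tendsto_const_nhds
  | of a => simpa using h a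
  | inv_of a h' => simpa using (h a).inv
  | mul x y hx hy =>
    simp only [map_mul]
    exact hx.mul hy

theorem continuous_lift {Y α U : Type*} [TopologicalSpace Y] [Group U] [TopologicalSpace U]
    [IsTopologicalGroup U] (F : Y → α → U) (h : ∀ a, Continuous fun y => F y a)
    (w : FreeGroup α) : Continuous fun y => FreeGroup.lift (F y) w := by
  rw [continuous_iff_continuousAt]
  intro y
  exact tendsto_lift _ _ _ (fun a => (h a).continuousAt) w

theorem exists_interp (F : Finset Cn) (y : Cn → Cn) : ∃ f : C(Cn, Cn), ∀ a ∈ F, f a = y a := by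
  classical
  induction F using Finset.induction_on with
  | empty => exact ⟨ContinuousMap.id _, by simp⟩
  | insert a F ha ih =>
    obtain ⟨f, hf⟩ := ih
    have h1 : IsOpen ((F : Set Cn)ᶜ) := F.finite_toSet.isClosed.isOpen_compl
    obtain ⟨K, hK, haK, hKF⟩ := compact_exists_isClopen_in_isOpen h1
      (show a ∈ ((F : Set Cn)ᶜ) by simpa using ha)
    refine ⟨⟨fun σ => if σ ∈ K then y a else f σ, ?_⟩, ?_⟩
    · apply Continuous.if
      · intro x hx
        have : frontier {x | x ∈ K} = ∅ := hK.frontier_eq
        rw [this] at hx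
        exact absurd hx (by simp)
      · exact continuous_const
      · exact f.continuous
    · intro x hx
      rw [Finset.mem_insert] at hx
      rcases hx with rfl | hx
      · simp [haK]
      · have : x ∉ K := fun h => hKF h (by simpa using hx)
        simp [this, hf x hx]

end Pool.Agent.H746.GD
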