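import Pool.Agent.H746.GD.Om
import Pool.Agent.H746.GD.Choice
import Pool.Agent.H746.GD.Free

set_option autoImplicit false

/-!
# Condensation of an uncountable family in a second countable space
-/

open Cardinal Set Filter Topology

namespace Pool.Agent.H746.GD

theorem exists_dense_index {T : Type} {Z Y : Type*} [TopologicalSpace Z] [TopologicalSpace Y]
    [SecondCountableTopology Z] [SecondCountableTopology Y] [Nonempty Y]
    (hT : ¬ (univ : Set T).Countable) (z : T → Z) :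
    ∃ (ι : Om × ℕ → T) (c : ℕ → Y), Function.Injective ι ∧
      ∀ (b : Om) (x : Om × ℕ) (f : Y),
        (z (ι x), f) ∈ closure (range fun k => (z (ι (b, k)), c k)) := by
  classical
  obtain ⟨B, hBc, -, hB⟩ := TopologicalSpace.exists_countable_basis Z
  obtain ⟨B', hBc', -, hB'⟩ := TopologicalSpace.exists_countable_basis Y
  -- condensation points
  let S : Set T := {x | ∀ O ∈ B, z x ∈ O → ¬ (z ⁻¹' O).Countable}
  have hSc : Sᶜ.Countable := by
    have h1 : (⋃ O ∈ {O ∈ B | (z ⁻¹' O).Countable}, z ⁻¹' O).Countable :=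
      (hBc.mono (fun O hO => hO.1)).biUnion fun O hO => hO.2
    apply h1.mono
    intro x hx
    simp only [S, mem_compl_iff, mem_ofPred_eq] at hx
    push Not at hx
    obtain ⟨O, hO, hxO, hOc⟩ := hx
    exact mem_biUnion (show O ∈ {O ∈ B | (z ⁻¹' O).Countable} from ⟨hO, hOc⟩) hxO
  have hSne : S.Nonempty := by
    by_contra hcon
    rw [not_nonempty_iff_eq_empty] at hcon
    rw [hcon, compl_empty] at hSc
    exact hT hSc
  let E : Set (Set Z × Set Y) := {p | p.1 ∈ B ∧ p.2 ∈ B' ∧ (z ⁻¹' p.1 ∩ S).Nonempty ∧ p.2.Nonempty}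
  have hEs : E ⊆ B ×ˢ B' := fun p hp => ⟨hp.1, hp.2.1⟩
  have hEc : E.Countable := (hBc.prod hBc').mono hEs
  have hEne : E.Nonempty := by
    obtain ⟨x, hx⟩ := hSne
    obtain ⟨O, hO, hxO, -⟩ := hB.exists_subset_of_mem_open (mem_univ (z x)) isOpen_univ
    obtain ⟨O', hO', hyO', -⟩ := hB'.exists_subset_of_mem_open
      (mem_univ (Classical.arbitrary Y)) isOpen_univ
    exact ⟨(O, O'), hO, hO', ⟨x, hxO, hx⟩, ⟨_, hyO'⟩⟩
  obtain ⟨e, he⟩ := hEc.exists_eq_range hEne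
  have heE : ∀ k, e k ∈ E := fun k => by rw [he]; exact mem_range_self k
  choose c hc using fun k => (heE k).2.2.2
  have hA : ∀ p : Om × ℕ, #(Om × ℕ) ≤ #((z ⁻¹' (e p.2).1 ∩ S : Set T)) := by
    intro p
    apply mk_Om_prod_le
    intro hcount
    obtain ⟨x, hx, hxS⟩ := (heE p.2).2.2.1
    apply hxS _ (heE p.2).1 hx
    apply (hcount.union hSc).mono
    intro y hy
    by_cases hyS : y ∈ S
    · exact Or.inl ⟨hy, hyS⟩
    · exact Or.inr hyS
  obtain ⟨ι, hι, hιA⟩ := exists_inj_choice (fun p : Om × ℕ => (z ⁻¹' (e p.2).1 ∩ S : Set T)) hA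
  refine ⟨ι, c, hι, fun b x f => ?_⟩
  rw [(hB.prod hB').mem_closure_iff]
  rintro _ ⟨O, hO, O', hO', rfl⟩ ⟨hxO, hfO'⟩
  have hmem : (O, O') ∈ E := ⟨hO, hO', ⟨ι x, hxO, (hιA x).2⟩, ⟨f, hfO'⟩⟩
  rw [he] at hmem
  obtain ⟨k, hk⟩ := hmem
  refine ⟨(z (ι (b, k)), c k), ⟨?_, ?_⟩, ⟨k, rfl⟩⟩
  · have := (hιA (b, k)).1
    simp only [hk] at this
    exact this
  · have := hc k
    rw [hk] at this
    exact this

end Pool.Agent.H746.GD
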