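import Pool.Agent.H746.GD.Gen2

set_option autoImplicit false

/-!
# Compact subsets of the generated subgroup are second countable, the subgroup is not
-/

open Set Filter Topology

namespace Pool.Agent.H746.GD

variable {Ω U : Type} [LinearOrder Ω] [TopologicalSpace U] [Group U] [IsTopologicalGroup U]
  [T2Space U]

theorem isOpen_injective (m : ℕ) : IsOpen {ρ : Fin m → Cn | Function.Injective ρ} := by
  have : {ρ : Fin m → Cn | Function.Injective ρ} =
      ⋂ i : Fin m, ⋂ j : Fin m, {ρ | i ≠ j → ρ i ≠ ρ j} := by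
    ext ρ
    simp only [mem_ofPred_eq, mem_iInter]
    constructor
    · intro h i j hij hρ
      exact hij (h hρ)
    · intro h i j hρ
      by_contra hij
      exact h i j hij hρ
  rw [this]
  refine isOpen_iInter_of_finite fun i => isOpen_iInter_of_finite fun j => ?_
  by_cases hij : i = j
  · have : {ρ : Fin m → Cn | i ≠ j → ρ i ≠ ρ j} = univ := by
      ext ρ; simp [hij]
    rw [this]; exact isOpen_univ
  · have : {ρ : Fin m → Cn | i ≠ j → ρ i ≠ ρ j} = {ρ | ρ i ≠ ρ j} := by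
      ext ρ; simp [hij]
    rw [this]
    exact isOpen_ne_fun (continuous_apply i) (continuous_apply j)

theorem exists_closed_seq {Y : Type*} [TopologicalSpace Y] [TopologicalSpace.MetrizableSpace Y]
    {O : Set Y} (hO : IsOpen O) : ∃ F : ℕ → Set Y, (∀ n, IsClosed (F n)) ∧ (⋃ n, F n) = O := by
  let := TopologicalSpace.metrizableSpaceMetric Y
  obtain ⟨F, h1, -, h2, -⟩ := hO.exists_iUnion_isClosed
  exact ⟨F, h1, h2⟩

namespace Data

variable (d : Data Ω U)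

theorem labels_countable (hb : ∀ A : Set Ω, A.Countable → ∃ b, ∀ a ∈ A, a ≤ b)
    (C : Set (Ω × ℕ → U)) (hC : IsCompact C) (hCD : C ⊆ d.D) {m : ℕ}
    (w : FreeGroup (ℕ ⊕ Fin m)) (K : Set ((ℕ → Cn) × (Fin m → Cn))) (hK : IsClosed K)
    (hKE : ∀ p ∈ K, (∀ j, d.Ess w p.1 j) ∧ Function.Injective p.2) :
    {l : Xi Ω | ∃ (σ : ℕ → Cn) (ξ : Fin m → Xi Ω) (j : Fin m), l = ξ j ∧
      (σ, fun j => d.r (ξ j)) ∈ K ∧ d.wp w σ ξ ∈ C}.Countable := by
  have h1 := d.closure_sub hb C hC hCD w K hK hKE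
  set R := {ρ : Fin m → Cn | ∃ (σ : ℕ → Cn) (ξ : Fin m → Xi Ω), ρ = (fun j => d.r (ξ j)) ∧
      (σ, ρ) ∈ K ∧ d.wp w σ ξ ∈ C} with hR
  have h2 : ∀ j : Fin m, ((fun ρ : Fin m → Cn => ρ j) '' closure R).Countable := by
    intro j
    apply d.hr'
    · exact isClosed_closure.isCompact.image (continuous_apply j)
    · rintro _ ⟨ρ, hρ, rfl⟩
      exact h1 ρ hρ j
  have h3 : (⋃ j : Fin m, d.r ⁻¹' ((fun ρ : Fin m → Cn => ρ j) '' closure R)).Countable :=
    countable_iUnion fun j => (h2 j).preimage_of_injOn d.hr.injOn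
  apply h3.mono
  rintro l ⟨σ, ξ, j, rfl, h4, h5⟩
  exact mem_iUnion.2 ⟨j, _, subset_closure ⟨σ, ξ, rfl, h4, h5⟩, rfl⟩

theorem exists_bound (hb : ∀ A : Set Ω, A.Countable → ∃ b, ∀ a ∈ A, a ≤ b)
    (C : Set (Ω × ℕ → U)) (hC : IsCompact C) (hCD : C ⊆ d.D) :
    ∃ b₀ : Ω, ∀ g ∈ C, ∃ (m : ℕ) (w : FreeGroup (ℕ ⊕ Fin m)) (σ : ℕ → Cn) (ξ : Fin m → Xi Ω),
      g = d.wp w σ ξ ∧ ∀ j, (ξ j).1 ≤ b₀ := by
  have hO : ∀ (m : ℕ) (w : FreeGroup (ℕ ⊕ Fin m)),
      IsOpen {p : (ℕ → Cn) × (Fin m → Cn) | (∀ j, d.Ess w p.1 j) ∧ Function.Injective p.2} := by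
    intro m w
    have : {p : (ℕ → Cn) × (Fin m → Cn) | (∀ j, d.Ess w p.1 j) ∧ Function.Injective p.2} =
      (⋂ j, {σ | d.Ess w σ j}) ×ˢ {ρ | Function.Injective ρ} := by
      ext p
      simp
    rw [this]
    exact (isOpen_iInter_of_finite fun j => d.isOpen_ess w j).prod (isOpen_injective m)
  choose F hFc hFu using fun (m : ℕ) (w : FreeGroup (ℕ ⊕ Fin m)) => exists_closed_seq (hO m w)
  have h1 : (⋃ p : Σ m : ℕ, FreeGroup (ℕ ⊕ Fin m) × ℕ,
      {l : Xi Ω | ∃ (σ : ℕ → Cn) (ξ : Fin p.1 → Xi Ω) (j : Fin p.1), l = ξ j ∧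
      (σ, fun j => d.r (ξ j)) ∈ F p.1 p.2.1 p.2.2 ∧ d.wp p.2.1 σ ξ ∈ C}).Countable := by
    apply countable_iUnion
    rintro ⟨m, w, n⟩
    apply d.labels_countable hb C hC hCD w (F m w n) (hFc m w n)
    intro p hp
    have : p ∈ ⋃ n, F m w n := mem_iUnion.2 ⟨n, hp⟩
    rw [hFu] at this
    exact this
  obtain ⟨b₀, hb₀⟩ := hb _ (h1.image Prod.fst)
  refine ⟨b₀, fun g hg => ?_⟩
  obtain ⟨m, w, σ, ξ, hw, hess, hinj⟩ := d.exists_wp_ess g (hCD hg)
  refine ⟨m, w, σ, ξ, hw, fun j => hb₀ _ ⟨ξ j, ?_, rfl⟩⟩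
  have h2 : (σ, fun j => d.r (ξ j)) ∈ ⋃ n, F m w n := by
    rw [hFu]
    exact ⟨hess, d.hr.comp hinj⟩
  obtain ⟨n, hn⟩ := mem_iUnion.1 h2
  exact mem_iUnion.2 ⟨⟨m, w, n⟩, σ, ξ, j, rfl, hn, hw ▸ hg⟩

theorem block_injOn (C : Set (Ω × ℕ → U)) (b₀ : Ω)
    (hb₀ : ∀ g ∈ C, ∃ (m : ℕ) (w : FreeGroup (ℕ ⊕ Fin m)) (σ : ℕ → Cn) (ξ : Fin m → Xi Ω),
      g = d.wp w σ ξ ∧ ∀ j, (ξ j).1 ≤ b₀) :
    Set.InjOn (fun (g : Ω × ℕ → U) (k : ℕ) => g (b₀, k)) C := by
  classical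
  intro g hg g' hg' hgg
  obtain ⟨m, w, σ, ξ, rfl, hξ⟩ := hb₀ g hg
  obtain ⟨m', w', σ', ξ', rfl, hξ'⟩ := hb₀ g' hg'
  have hgen := d.generic₂ b₀ (FreeGroup.map (Sum.map σ (fun j => d.r (ξ j))) w)
    (FreeGroup.map (Sum.map σ' (fun j => d.r (ξ' j))) w') (by
      intro k
      have h1 := congrFun hgg k
      simp only [wp, wv] at h1
      rw [lift_map, lift_map]
      convert h1 using 2
      · congr 1
        ext (i | i)
        · rfl
        · exact (d.X_of_le (ξ i) (b₀, k) (hξ i)).symm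
      · congr 1
        ext (i | i)
        · rfl
        · exact (d.X_of_le (ξ' i) (b₀, k) (hξ' i)).symm)
  ext x
  -- the values of the generic points as a function of the label image
  let v : Cn → U := fun y => if h : ∃ l, d.r l = y then d.X h.choose x else 1
  have hv : ∀ l, v (d.r l) = d.X l x := fun l => by
    have hex : ∃ l', d.r l' = d.r l := ⟨l, rfl⟩
    have : v (d.r l) = d.X hex.choose x := dif_pos hex
    rw [this, d.hr hex.choose_spec]
  have hvV : ∀ y, v y ∈ d.V x := fun y => by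
    by_cases hex : ∃ l, d.r l = y
    · have : v y = d.X hex.choose x := dif_pos hex
      rw [this]; exact d.X_mem _ _
    · have : v y = 1 := dif_neg hex
      rw [this]; exact one_mem _
  have h2 := hgen x v hvV
  rw [lift_map, lift_map] at h2
  show d.wv w x σ _ = d.wv w' x σ' _
  unfold wv
  convert h2 using 2
  · congr 1
    ext (i | i)
    · rfl
    · exact (hv (ξ i)).symm
  · congr 1
    ext (i | i)
    · rfl
    · exact (hv (ξ' i)).symm

theorem secondCountable_compact [SecondCountableTopology U]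
    (hb : ∀ A : Set Ω, A.Countable → ∃ b, ∀ a ∈ A, a ≤ b)
    (C : Set d.D) (hC : IsCompact C) : SecondCountableTopology C := by
  let C' : Set (Ω × ℕ → U) := Subtype.val '' C
  have hC' : IsCompact C' := hC.image continuous_subtype_val
  obtain ⟨b₀, hb₀⟩ := d.exists_bound hb C' hC' (by rintro _ ⟨x, -, rfl⟩; exact x.2)
  have hinj := d.block_injOn C' b₀ hb₀
  let φ : C → (ℕ → U) := fun g k => (g.1.1 : Ω × ℕ → U) (b₀, k)
  have hφc : Continuous φ := by
    apply continuous_pi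
    intro k
    exact (continuous_apply (b₀, k)).comp (continuous_subtype_val.comp continuous_subtype_val)
  have hφi : Function.Injective φ := by
    intro g g' h
    apply Subtype.ext
    apply Subtype.ext
    exact hinj ⟨g.1, g.2, rfl⟩ ⟨g'.1, g'.2, rfl⟩ h
  have : CompactSpace C := isCompact_iff_compactSpace.1 hC
  have hemb := hφc.isClosedEmbedding hφi
  exact hemb.isEmbedding.secondCountableTopology

theorem not_secondCountable (hb : ∀ A : Set Ω, A.Countable → ∃ b, ∀ a ∈ A, a < b) :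
    ¬ SecondCountableTopology d.D := by
  classical
  intro hsc
  -- a countable set of coordinates which determines the neighbourhoods of the identity
  obtain ⟨N, hN⟩ := (𝓝 (1 : d.D)).exists_antitone_basis
  have h1 : ∀ n, ∃ F : Set (Ω × ℕ), F.Finite ∧ ∀ g : d.D, (∀ x ∈ F, g.1 x = 1) → g ∈ N n := by
    intro n
    have h2 : N n ∈ 𝓝 (1 : d.D) := hN.1.mem_of_mem trivial
    rw [mem_nhds_subtype] at h2
    obtain ⟨O, hO, hON⟩ := h2
    have hO' : O ∈ 𝓝 (1 : Ω × ℕ → U) := hO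
    rw [nhds_pi, Filter.mem_pi] at hO'
    obtain ⟨F, hF, s, hs, hsO⟩ := hO'
    refine ⟨F, hF, fun g hg => hON (hsO ?_)⟩
    intro x hx
    rw [hg x hx]
    exact mem_of_mem_nhds (hs x)
  choose F hF hFN using h1
  obtain ⟨b, hbb⟩ := hb (⋃ n, Prod.fst '' F n) (countable_iUnion fun n => ((hF n).image _).countable)
  obtain ⟨ξ, hξ, hξ'⟩ := d.exists_X b (fun _ => 1) (fun _ => one_mem _)
  have hXD : d.X ξ ∈ d.D := ⟨FreeGroup.of (Sum.inr ξ), by simp [wd]⟩
  have h3 : (⟨d.X ξ, hXD⟩ : d.D) = 1 := by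
    by_contra hne
    have : ({(⟨d.X ξ, hXD⟩ : d.D)}ᶜ : Set d.D) ∈ 𝓝 (1 : d.D) :=
      isOpen_compl_singleton.mem_nhds (fun h => hne h.symm)
    obtain ⟨n, -, hn⟩ := hN.1.mem_iff.1 this
    refine hn (hFN n _ fun x hx => ?_) rfl
    exact hξ' x (hbb _ (mem_iUnion.2 ⟨n, x, hx, rfl⟩))
  have h4 : ∀ x, d.X ξ x = 1 := fun x => congrFun (congrArg Subtype.val h3) x
  -- use genericity at the block b
  have h5 := d.generic b (FreeGroup.of (Sum.inr (d.r ξ))) (by
    intro k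
    rw [FreeGroup.lift_apply_of]
    show d.κ (b, k) (d.c k (d.r ξ)) = 1
    rw [← d.X_of_le ξ (b, k) hξ.le]
    exact h4 _)
  apply d.hV (b, 0)
  rw [eq_bot_iff]
  intro y hy
  have h6 := h5 (b, 0) (fun _ => y) (fun _ => hy)
  rw [FreeGroup.lift_apply_of] at h6
  exact h6

end Data

end Pool.Agent.H746.GD
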