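import Pool.Agent.H746.GD.Free

set_option autoImplicit false

/-!
# Continuous selections over the Cantor space
-/

open Set Filter Topology

namespace Pool.Agent.H746.GD

theorem exists_cont_of_local {U : Type*} [TopologicalSpace U] (P : Cn → U → Prop)
    (h : ∀ σ₀, ∃ u, ∀ᶠ σ in 𝓝 σ₀, P σ u) : ∃ f : C(Cn, U), ∀ σ, P σ (f σ) := by
  classical
  obtain ⟨u₀, -⟩ := h default
  have key : ∃ K : Set Cn, IsClopen K ∧ univ ⊆ K ∧ ∃ f : C(Cn, U), ∀ σ ∈ K, P σ (f σ) := by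
    refine IsCompact.induction_on (p := fun S => ∃ K : Set Cn, IsClopen K ∧ S ⊆ K ∧
      ∃ f : C(Cn, U), ∀ σ ∈ K, P σ (f σ)) (isCompact_univ (X := Cn)) ?_ ?_ ?_ ?_
    · exact ⟨∅, isClopen_empty, subset_rfl, ContinuousMap.const _ u₀, by simp⟩
    · rintro s t hst ⟨K, hK, htK, hf⟩
      exact ⟨K, hK, hst.trans htK, hf⟩
    · rintro s t ⟨K, hK, hsK, f, hf⟩ ⟨K', hK', htK', f', hf'⟩
      refine ⟨K ∪ K', hK.union hK', union_subset_union hsK htK',
        ⟨fun σ => if σ ∈ K then f σ else f' σ, ?_⟩, ?_⟩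
      · apply Continuous.if
        · intro x hx
          have : frontier {x | x ∈ K} = ∅ := hK.frontier_eq
          rw [this] at hx
          exact absurd hx (by simp)
        · exact f.continuous
        · exact f'.continuous
      · intro σ hσ
        show P σ (if σ ∈ K then f σ else f' σ)
        by_cases hσK : σ ∈ K
        · rw [if_pos hσK]; exact hf σ hσK
        · rw [if_neg hσK]; exact hf' σ (hσ.resolve_left hσK)
    · intro σ₀ _
      obtain ⟨u, hu⟩ := h σ₀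
      obtain ⟨O, hO, hOo, hσO⟩ := eventually_nhds_iff.1 hu
      obtain ⟨K, hK, hσK, hKO⟩ := compact_exists_isClopen_in_isOpen hOo hσO
      exact ⟨K, mem_nhdsWithin_of_mem_nhds (hK.isOpen.mem_nhds hσK), K, hK, subset_rfl,
        ContinuousMap.const _ u, fun σ hσ => hO σ (hKO hσ)⟩
  obtain ⟨K, -, hK, f, hf⟩ := key
  exact ⟨f, fun σ => hf σ (hK trivial)⟩

theorem exists_selection {U : Type*} [MetricSpace U] [CompleteSpace U] (Φ : Cn → Set U)
    (hne : ∀ σ, (Φ σ).Nonempty) (hcl : ∀ σ, IsClosed (Φ σ))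
    (hlsc : ∀ σ₀, ∀ u ∈ Φ σ₀, ∀ ε > 0, ∀ᶠ σ in 𝓝 σ₀, (Φ σ ∩ Metric.ball u ε).Nonempty) :
    ∃ τ : C(Cn, U), ∀ σ, τ σ ∈ Φ σ := by
  classical
  let good : ℕ → C(Cn, U) → Prop := fun n f => ∀ σ, (Φ σ ∩ Metric.ball (f σ) ((1 / 2) ^ n)).Nonempty
  have hpos : ∀ n : ℕ, (0 : ℝ) < (1 / 2) ^ n := fun n => by positivity
  have h0 : ∃ f, good 0 f := by
    apply exists_cont_of_local (fun σ u => (Φ σ ∩ Metric.ball u ((1 / 2) ^ 0)).Nonempty)
    intro σ₀
    obtain ⟨u, hu⟩ := hne σ₀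
    exact ⟨u, hlsc σ₀ u hu _ (hpos 0)⟩
  have hstep : ∀ (n : ℕ) (f : C(Cn, U)), good n f → ∃ g : C(Cn, U), good (n + 1) g ∧
      ∀ σ, dist (f σ) (g σ) < (1 / 2) ^ n := by
    intro n f hf
    obtain ⟨g, hg⟩ := exists_cont_of_local (fun σ u =>
      (Φ σ ∩ Metric.ball u ((1 / 2) ^ (n + 1))).Nonempty ∧ dist (f σ) u < (1 / 2) ^ n) (by
      intro σ₀
      obtain ⟨u, hu, huf⟩ := hf σ₀
      refine ⟨u, (hlsc σ₀ u hu _ (hpos _)).and ?_⟩
      have : IsOpen {σ | dist (f σ) u < (1 / 2) ^ n} :=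
        isOpen_lt (by fun_prop) continuous_const
      apply this.mem_nhds
      rw [Metric.mem_ball, dist_comm] at huf
      exact huf)
    exact ⟨g, fun σ => (hg σ).1, fun σ => (hg σ).2⟩
  choose! st hst1 hst2 using hstep
  obtain ⟨f₀, hf₀⟩ := h0
  let f : ℕ → C(Cn, U) := fun n => Nat.rec f₀ (fun n g => st n g) n
  have hf : ∀ n, good n (f n) := by
    intro n
    induction n with
    | zero => exact hf₀
    | succ n ih => exact hst1 n (f n) ih
  have hd : ∀ n, dist (f n) (f (n + 1)) ≤ 1 * (1 / 2) ^ n := by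
    intro n
    rw [one_mul, ContinuousMap.dist_le (hpos n).le]
    intro σ
    exact (hst2 n (f n) (hf n) σ).le
  have hcau : CauchySeq f := cauchySeq_of_le_geometric (1 / 2) 1 (by norm_num) hd
  obtain ⟨τ, hτ⟩ := cauchySeq_tendsto_of_complete hcau
  refine ⟨τ, fun σ => ?_⟩
  have h1 : Tendsto (fun n => f n σ) atTop (𝓝 (τ σ)) :=
    ((show Continuous fun g : C(Cn, U) => g σ by fun_prop).tendsto τ).comp hτ
  choose y hy hyf using fun n => hf n σ
  have h2 : Tendsto y atTop (𝓝 (τ σ)) := by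
    rw [tendsto_iff_dist_tendsto_zero] at h1 ⊢
    have h3 : Tendsto (fun n => ((1 / 2 : ℝ)) ^ n) atTop (𝓝 0) :=
      tendsto_pow_atTop_nhds_zero_of_lt_one (by norm_num) (by norm_num)
    have h4 := h3.add h1
    rw [add_zero] at h4
    refine squeeze_zero (fun _ => dist_nonneg) (fun n => ?_) h4
    calc dist (y n) (τ σ) ≤ dist (y n) (f n σ) + dist (f n σ) (τ σ) := dist_triangle _ _ _
      _ ≤ _ := add_le_add (hyf n).le le_rfl
  exact (hcl σ).mem_of_tendsto h2 (Eventually.of_forall hy)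

/-- Lifting a map of the Cantor space through a pair of homomorphisms. -/
theorem exists_lift {G Q U : Type*} [Group G] [TopologicalSpace G] [IsTopologicalGroup G]
    [CompactSpace G] [TopologicalSpace Q] [T2Space Q] [TopologicalSpace U] [CompactSpace U]
    [TopologicalSpace.MetrizableSpace U] (q : G → Q) (hq : Continuous q) (hqo : IsOpenMap q)
    (hqs : Function.Surjective q) (ρ : G → U) (hρ : Continuous ρ) (s : C(Cn, Q)) :
    ∃ τ : C(Cn, U), ∀ σ, ∃ g, q g = s σ ∧ ρ g = τ σ := by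
  let := TopologicalSpace.metrizableSpaceMetric U
  obtain ⟨τ, hτ⟩ := exists_selection (fun σ => ρ '' (q ⁻¹' {s σ})) (by
      intro σ
      obtain ⟨g, hg⟩ := hqs (s σ)
      exact ⟨ρ g, g, hg, rfl⟩) (by
      intro σ
      exact ((isClosed_singleton.preimage hq).isCompact.image hρ).isClosed) (by
      rintro σ₀ _ ⟨g, hg, rfl⟩ ε hε
      have h1 : IsOpen (q '' (ρ ⁻¹' Metric.ball (ρ g) ε)) := hqo _ (Metric.isOpen_ball.preimage hρ)
      have h2 : IsOpen (s ⁻¹' (q '' (ρ ⁻¹' Metric.ball (ρ g) ε))) := h1.preimage s.continuous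
      filter_upwards [h2.mem_nhds ⟨g, by simpa using hε, hg⟩]
      rintro σ ⟨g', hg', hqg'⟩
      exact ⟨ρ g', ⟨g', hqg', rfl⟩, hg'⟩)
  refine ⟨τ, fun σ => ?_⟩
  obtain ⟨g, hg, hgτ⟩ := hτ σ
  exact ⟨g, hg, hgτ⟩

end Pool.Agent.H746.GD
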