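import Pool.Agent.H746.GD.Chain
import Pool.Agent.H746.GD.Cond
import Pool.Agent.H746.GD.Sel
import Pool.Agent.H746.GD.Gen3

set_option autoImplicit false

/-!
# Construction of the dense subgroup
-/

open Cardinal Set Filter Topology

universe u

namespace Pool.Agent.H746.GD

variable {G : Type u} [Group G] [TopologicalSpace G] [IsTopologicalGroup G] [CompactSpace G]
  [T2Space G]

theorem exists_param {n : ℕ} (V : Subgroup (UU n)) (hV : IsClosed (V : Set (UU n))) :
    ∃ κ : C(Cn, UU n), range κ = (V : Set (UU n)) := by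
  have : CompactSpace V := isCompact_iff_compactSpace.1 hV.isCompact
  have : SecondCountableTopology V := TopologicalSpace.Subtype.secondCountableTopology _
  have : TopologicalSpace.MetrizableSpace V := inferInstance
  let := TopologicalSpace.metrizableSpaceMetric V
  obtain ⟨f, hf, hfs⟩ := exists_nat_bool_continuous_surjective_of_compact V
  refine ⟨⟨fun σ => (f σ : UU n), continuous_subtype_val.comp hf⟩, ?_⟩
  ext y
  constructor
  · rintro ⟨σ, rfl⟩
    exact (f σ).2
  · intro hy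
    obtain ⟨σ, hσ⟩ := hfs ⟨y, hy⟩
    exact ⟨σ, by show (f σ : UU n) = y; rw [hσ]⟩

omit [T2Space G] in
/-- The quotient map onto a compact second countable group, with a parametrisation. -/
theorem exists_quot {J : Type} [Countable J] (R : J → Rp G) (N : Subgroup G)
    (hN : ∀ g, g ∈ N ↔ ∀ j, (R j).2.1 g = 1) :
    ∃ (Q : Type) (_ : Group Q) (_ : TopologicalSpace Q) (_ : T2Space Q) (q : G →* Q)
      (s : C(Cn, Q)), Continuous q ∧ IsOpenMap q ∧ Function.Surjective q ∧
      Function.Surjective s ∧ ∀ g, q g = 1 ↔ g ∈ N := by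
  let φ : G →* ((j : J) → UU (R j).1) := MonoidHom.pi fun j => (R j).2.1
  have hφc : Continuous φ := continuous_pi fun j => (R j).2.2
  let q : G →* φ.range := φ.rangeRestrict
  have hqc : Continuous q := hφc.subtype_mk _
  have hqs : Function.Surjective q := φ.rangeRestrict_surjective
  have hqm : IsQuotientMap q := (hqc.isClosedMap).isQuotientMap hqc hqs
  have hqo : IsOpenMap q := (MonoidHom.isOpenQuotientMap_of_isQuotientMap hqm).isOpenMap
  have : CompactSpace φ.range := by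
    have h1 : IsCompact (range φ) := isCompact_range hφc
    exact isCompact_iff_compactSpace.1 h1
  have : SecondCountableTopology φ.range := TopologicalSpace.Subtype.secondCountableTopology _
  have : TopologicalSpace.MetrizableSpace φ.range := inferInstance
  let := TopologicalSpace.metrizableSpaceMetric φ.range
  obtain ⟨f, hf, hfs⟩ := exists_nat_bool_continuous_surjective_of_compact φ.range
  refine ⟨φ.range, inferInstance, inferInstance, inferInstance, q, ⟨f, hf⟩, hqc, hqo, hqs, hfs, ?_⟩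
  intro g
  rw [hN, Subtype.ext_iff]
  constructor
  · intro h j
    exact congrFun h j
  · intro h
    exact funext h

/-- The data of the construction inside a non-metrizable compact group. -/
theorem exists_data (hG : ¬ SecondCountableTopology G) :
    ∃ (n : ℕ) (d : Data Om (UU n)) (Φ : G →* (Om × ℕ → UU n)), Continuous Φ ∧
      (∀ σ, ∃ g : G, Φ g = d.t σ) ∧
      (∀ g : G, ∃ σ : Cn, ∃ g' : G, Φ g' = d.t σ ∧ ∀ x, Φ (g'⁻¹ * g) x ∈ d.V x) ∧
      ∀ v : Om × ℕ → UU n, (∀ x, v x ∈ d.V x) → ∃ g, Φ g = v := by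
  classical
  obtain ⟨n, T, iT, J, iJ, R, ρ, N, M, hT, hN, hρ, hM, hM1, hNM, hne⟩ := exists_family hG
  obtain ⟨Q, iQ, tQ, hQ, q, s, hqc, hqo, hqs, hss, hqN⟩ := exists_quot R N hN
  have hNcl : IsClosed (N : Set G) := by
    have : (N : Set G) = q ⁻¹' {1} := by
      ext g
      exact (hqN g).symm
    rw [this]
    exact isClosed_singleton.preimage hqc
  have hVcl : ∀ a, IsClosed ((N.map (ρ a) : Subgroup (UU n)) : Set (UU n)) := fun a =>
    (hNcl.isCompact.image (hρ a)).isClosed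
  choose κ hκ using fun a => exists_param (N.map (ρ a)) (hVcl a)
  choose τ hτ using fun a => exists_lift q hqc hqo hqs (ρ a) (hρ a) s
  obtain ⟨ι, c, hι, hden⟩ := exists_dense_index (Y := C(Cn, Cn)) hT (fun a => (τ a, κ a))
  have henc : ∀ β : Om, ∃ e : Om × ℕ → ℕ, InjOn e {x | x.1 < β} := by
    intro β
    rw [← Set.countable_iff_exists_injOn]
    have : {x : Om × ℕ | x.1 < β} = Iio β ×ˢ (Set.univ : Set ℕ) := by
      ext x
      simp
    rw [this]
    exact (countable_Iio β).prod countable_univ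
  choose enc henc using henc
  obtain ⟨r, hr, hr'⟩ := exists_bernstein (Om × (ℕ → Cn)) mk_Xi_le
  let d : Data Om (UU n) :=
    { V := fun x => N.map (ρ (ι x))
      τ := fun x => τ (ι x)
      κ := fun x => κ (ι x)
      c := c
      enc := enc
      r := r
      hκ := fun x => hκ (ι x)
      hV := fun x => by
        obtain ⟨g, hg, hg1⟩ := hne (ι x)
        intro hbot
        have : ρ (ι x) g ∈ N.map (ρ (ι x)) := ⟨g, hg, rfl⟩
        rw [hbot] at this
        exact hg1 this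
      dense := hden
      henc := henc
      hr := hr
      hr' := hr' }
  let Φ : G →* (Om × ℕ → UU n) := MonoidHom.pi fun x => ρ (ι x)
  have hsurj : ∀ v : Om × ℕ → UU n, (∀ x, v x ∈ d.V x) → ∃ g ∈ N, Φ g = v := by
    intro v hv
    let v' : T → UU n := fun a => if h : ∃ x, ι x = a then v h.choose else 1
    have hv' : ∀ x, v' (ι x) = v x := fun x => by
      have hex : ∃ x', ι x' = ι x := ⟨x, rfl⟩
      have : v' (ι x) = v hex.choose := dif_pos hex
      rw [this, hι hex.choose_spec]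
    obtain ⟨g, hg, hgv⟩ := joint_surj ρ N hNcl M hρ hM hM1 hNM v' (by
      intro a
      by_cases hex : ∃ x, ι x = a
      · obtain ⟨x, rfl⟩ := hex
        rw [hv']
        exact hv x
      · have : v' a = 1 := dif_neg hex
        rw [this]
        exact one_mem _)
    refine ⟨g, hg, ?_⟩
    ext1 x
    show ρ (ι x) g = v x
    rw [hgv, hv']
  have hmem : ∀ g₁ g₂ : G, q g₁ = q g₂ → g₁⁻¹ * g₂ ∈ N := by
    intro g₁ g₂ h
    rw [← hqN, map_mul, map_inv, h, inv_mul_cancel]
  have hlift : ∀ σ, ∃ g : G, q g = s σ ∧ Φ g = d.t σ := by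
    intro σ
    obtain ⟨g₀, hg₀⟩ := hqs (s σ)
    choose ga hga hga' using fun a => hτ a σ
    obtain ⟨h, hhN, hh⟩ := hsurj (fun x => ρ (ι x) (g₀⁻¹ * ga (ι x))) (fun x =>
      ⟨_, hmem g₀ (ga (ι x)) (by rw [hg₀, hga]), rfl⟩)
    refine ⟨g₀ * h, by rw [map_mul, (hqN h).2 hhN, mul_one, hg₀], ?_⟩
    ext1 x
    have h1 : ρ (ι x) h = ρ (ι x) (g₀⁻¹ * ga (ι x)) := congrFun hh x
    show ρ (ι x) (g₀ * h) = τ (ι x) σ
    rw [map_mul, h1, ← map_mul, mul_inv_cancel_left, hga']
  refine ⟨n, d, Φ, continuous_pi fun x => hρ (ι x), ?_, ?_, fun v hv => ?_⟩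
  · intro σ
    obtain ⟨g, -, hg⟩ := hlift σ
    exact ⟨g, hg⟩
  · intro g
    obtain ⟨σ, hσ⟩ := hss (q g)
    obtain ⟨g', hg', hg't⟩ := hlift σ
    exact ⟨σ, g', hg't, fun x => ⟨g'⁻¹ * g, hmem _ _ (by rw [hg', hσ]), rfl⟩⟩
  · obtain ⟨g, -, hg⟩ := hsurj v hv
    exact ⟨g, hg⟩

/-- The pull back of the generated subgroup meets every nonempty countable intersection of open
sets. -/
theorem gdelta_dense {n : ℕ} (d : Data Om (UU n)) (Φ : G →* (Om × ℕ → UU n)) (hΦ : Continuous Φ)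
    (h1 : ∀ g : G, ∃ σ : Cn, ∃ g' : G, Φ g' = d.t σ ∧ ∀ x, Φ (g'⁻¹ * g) x ∈ d.V x)
    (h2 : ∀ v : Om × ℕ → UU n, (∀ x, v x ∈ d.V x) → ∃ g, Φ g = v)
    (O : ℕ → Set G) (hO : ∀ n, IsOpen (O n)) (x : G) (hx : ∀ n, x ∈ O n) :
    ∃ g, (∀ n, g ∈ O n) ∧ Φ g ∈ d.D := by
  classical
  choose C hC hCc hCO using fun n => exists_mem_nhds_isClosed_subset ((hO n).mem_nhds (hx n))
  let W : ℕ → Set G := fun n => ⋂ i ∈ Finset.range (n + 1), C i
  have hWc : ∀ n, IsClosed (W n) := fun n => isClosed_biInter fun i _ => hCc i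
  have hWn : ∀ n, W n ∈ 𝓝 x := fun n => by
    rw [Filter.biInter_finset_mem]
    exact fun i _ => hC i
  have hWa : ∀ m n, m ≤ n → W n ⊆ W m := fun m n hmn => by
    apply biInter_subset_biInter_left
    intro i hi
    simp only [Finset.coe_range, mem_Iio] at hi ⊢
    have : i < n + 1 := by
      have h3 : i < m + 1 := by simpa using hi
      omega
    simpa using this
  have hWC : ∀ n, W n ⊆ C n := fun n => biInter_subset_of_mem (by simp)
  -- openness onto the image
  let q : G →* Φ.range := Φ.rangeRestrict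
  have hqc : Continuous q := hΦ.subtype_mk _
  have hqm : IsQuotientMap q := (hqc.isClosedMap).isQuotientMap hqc Φ.rangeRestrict_surjective
  have hqo : IsOpenMap q := (MonoidHom.isOpenQuotientMap_of_isQuotientMap hqm).isOpenMap
  have hA : ∀ n, ∃ F : Set (Om × ℕ), F.Finite ∧
      ∀ g : G, (∀ y ∈ F, Φ g y = Φ x y) → ∃ g' ∈ W n, Φ g' = Φ g := by
    intro n
    have h3 : q '' W n ∈ 𝓝 (q x) := hqo.image_mem_nhds (hWn n)
    rw [mem_nhds_subtype] at h3
    obtain ⟨u, hu, hun⟩ := h3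
    have hu' : u ∈ 𝓝 (Φ x) := hu
    rw [nhds_pi, Filter.mem_pi] at hu'
    obtain ⟨F, hF, s, hs, hsu⟩ := hu'
    refine ⟨F, hF, fun g hg => ?_⟩
    have h4 : q g ∈ q '' W n := by
      apply hun
      apply hsu
      intro y hy
      show Φ g y ∈ s y
      rw [hg y hy]
      exact mem_of_mem_nhds (hs y)
    obtain ⟨g', hg', hgg'⟩ := h4
    exact ⟨g', hg', congrArg Subtype.val hgg'⟩
  choose F hF hFW using hA
  obtain ⟨b, hb⟩ := exists_gt (⋃ n, Prod.fst '' F n)
    (countable_iUnion fun n => ((hF n).image _).countable)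
  obtain ⟨σ, g₀, hg₀, hg₀V⟩ := h1 x
  obtain ⟨ξ, -, hξ⟩ := d.exists_X b (fun y => Φ (g₀⁻¹ * x) y) hg₀V
  obtain ⟨g₁, hg₁⟩ := h2 (d.X ξ) (d.X_mem ξ)
  have hval : ∀ n, ∀ y ∈ F n, Φ (g₀ * g₁) y = Φ x y := by
    intro n y hy
    have h3 : y.1 < b := hb _ (mem_iUnion.2 ⟨n, y, hy, rfl⟩)
    rw [map_mul, Pi.mul_apply, hg₁, hξ y h3, ← Pi.mul_apply, ← map_mul, mul_inv_cancel_left]
  have hmem : Φ (g₀ * g₁) ∈ d.D := by
    rw [map_mul, hg₀, hg₁]
    refine ⟨FreeGroup.of (Sum.inl σ) * FreeGroup.of (Sum.inr ξ), ?_⟩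
    rw [map_mul]
    simp [Data.wd]
  have h5 : (⋂ n, {g : G | g ∈ W n ∧ Φ g = Φ (g₀ * g₁)}).Nonempty := by
    have hcl : ∀ n, IsClosed {g : G | g ∈ W n ∧ Φ g = Φ (g₀ * g₁)} := fun n =>
      (hWc n).inter (isClosed_singleton.preimage hΦ)
    apply IsCompact.nonempty_iInter_of_directed_nonempty_isCompact_isClosed
    · intro m n
      exact ⟨max m n, fun g hg => ⟨hWa _ _ (le_max_left _ _) hg.1, hg.2⟩,
        fun g hg => ⟨hWa _ _ (le_max_right _ _) hg.1, hg.2⟩⟩
    · intro n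
      obtain ⟨g', hg', hgg'⟩ := hFW n _ (hval n)
      exact ⟨g', hg', hgg'⟩
    · exact fun n => (hcl n).isCompact
    · exact hcl
  obtain ⟨g, hg⟩ := h5
  rw [mem_iInter] at hg
  refine ⟨g, fun n => hCO n (hWC n (hg n).1), ?_⟩
  rw [(hg 0).2]
  exact hmem

omit [TopologicalSpace G] [IsTopologicalGroup G] [CompactSpace G] [T2Space G] in
theorem D_le_range {n : ℕ} (d : Data Om (UU n)) (Φ : G →* (Om × ℕ → UU n))
    (h1 : ∀ σ, ∃ g : G, Φ g = d.t σ)
    (h2 : ∀ v : Om × ℕ → UU n, (∀ x, v x ∈ d.V x) → ∃ g, Φ g = v) : d.D ≤ Φ.range := by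
  unfold Data.D Data.wd
  rw [FreeGroup.range_lift_eq_closure, Subgroup.closure_le]
  rintro _ ⟨a | a, rfl⟩
  · exact h1 a
  · exact h2 _ (d.X_mem a)

end Pool.Agent.H746.GD
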