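import Pool.Agent.H746.GD.Choice
import Pool.Agent.H746.GD.Free

set_option autoImplicit false

/-!
# The subgroup generated by a continuous family of lifts and by generic points
-/

open Set Filter Topology

namespace Pool.Agent.H746.GD

/-- The combinatorial data of the construction. -/
structure Data (Ω U : Type) [LinearOrder Ω] [TopologicalSpace U] [Group U] where
  /-- the coordinate subgroups -/
  V : Ω × ℕ → Subgroup U
  /-- the lifts -/
  τ : Ω × ℕ → C(Cn, U)
  /-- parametrisations of the coordinate subgroups -/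
  κ : Ω × ℕ → C(Cn, U)
  /-- a sequence of self maps of the Cantor space -/
  c : ℕ → C(Cn, Cn)
  /-- enumerations of initial segments -/
  enc : Ω → Ω × ℕ → ℕ
  /-- an injection of the labels -/
  r : Ω × (ℕ → Cn) → Cn
  hκ : ∀ x, Set.range (κ x) = (V x : Set U)
  hV : ∀ x, V x ≠ ⊥
  dense : ∀ b x f, ((τ x, κ x), f) ∈ closure (Set.range fun k => ((τ (b, k), κ (b, k)), c k))
  henc : ∀ β, Set.InjOn (enc β) {x | x.1 < β}
  hr : Function.Injective r
  hr' : ∀ K : Set Cn, IsCompact K → K ⊆ Set.range r → K.Countable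

variable {Ω U : Type} [LinearOrder Ω] [TopologicalSpace U] [Group U] [IsTopologicalGroup U]
  [T2Space U]

/-- Labels of the generic points. -/
abbrev Xi (Ω : Type) : Type := Ω × (ℕ → Cn)

namespace Data

variable (d : Data Ω U)

/-- the lifts as points of the product -/
def t (σ : Cn) : Ω × ℕ → U := fun x => d.τ x σ

open Classical in
/-- the generic points of the product -/
noncomputable def X (ξ : Xi Ω) : Ω × ℕ → U := fun x =>
  if x.1 < ξ.1 then d.κ x (ξ.2 (d.enc ξ.1 x)) else d.κ x (d.c x.2 (d.r ξ))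

/-- evaluation of words -/
noncomputable def wd : FreeGroup (Cn ⊕ Xi Ω) →* (Ω × ℕ → U) := FreeGroup.lift (Sum.elim d.t d.X)

/-- the subgroup generated by the lifts and the generic points -/
noncomputable def D : Subgroup (Ω × ℕ → U) := d.wd.range

omit [IsTopologicalGroup U] [T2Space U] in
theorem κ_mem (x : Ω × ℕ) (y : Cn) : d.κ x y ∈ d.V x := by
  have : d.κ x y ∈ (d.V x : Set U) := by rw [← d.hκ]; exact ⟨y, rfl⟩
  exact this

omit [IsTopologicalGroup U] [T2Space U] in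
theorem X_mem (ξ : Xi Ω) (x : Ω × ℕ) : d.X ξ x ∈ d.V x := by
  unfold X
  split_ifs <;> exact d.κ_mem _ _

omit [IsTopologicalGroup U] [T2Space U] in
theorem X_of_le (ξ : Xi Ω) (x : Ω × ℕ) (h : ξ.1 ≤ x.1) :
    d.X ξ x = d.κ x (d.c x.2 (d.r ξ)) := by
  unfold X
  rw [if_neg (not_lt.2 h)]

omit [IsTopologicalGroup U] [T2Space U] in
theorem exists_X (β : Ω) (v : Ω × ℕ → U) (hv : ∀ x, v x ∈ d.V x) :
    ∃ ξ : Xi Ω, ξ.1 = β ∧ ∀ x, x.1 < β → d.X ξ x = v x := by
  classical
  have h1 : ∀ x, ∃ y, d.κ x y = v x := fun x => by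
    have : v x ∈ (d.V x : Set U) := hv x
    rw [← d.hκ] at this
    exact this
  choose y hy using h1
  let z : ℕ → Cn := fun n => if h : ∃ x : Ω × ℕ, x.1 < β ∧ d.enc β x = n then y h.choose else default
  refine ⟨(β, z), rfl, fun x hx => ?_⟩
  have hex : ∃ x' : Ω × ℕ, x'.1 < β ∧ d.enc β x' = d.enc β x := ⟨x, hx, rfl⟩
  have hz : z (d.enc β x) = y hex.choose := dif_pos hex
  have hc : hex.choose = x := d.henc β hex.choose_spec.1 hx hex.choose_spec.2
  show (if x.1 < β then d.κ x (z (d.enc β x)) else _) = _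
  rw [if_pos hx, hz, hc, hy]

omit [IsTopologicalGroup U] [T2Space U] in
theorem wd_apply (W : FreeGroup (Cn ⊕ Xi Ω)) (x : Ω × ℕ) :
    d.wd W x = FreeGroup.lift (Sum.elim (d.τ x) (fun ξ => d.X ξ x)) W := by
  have h : (Pi.evalMonoidHom (fun _ : Ω × ℕ => U) x).comp d.wd =
      FreeGroup.lift (Sum.elim (d.τ x) (fun ξ => d.X ξ x)) := by
    apply FreeGroup.ext_hom
    rintro (σ | ξ)
    · simp [wd, t]
    · simp [wd]
  exact DFunLike.congr_fun h W

/-- The genericity lemma. -/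
theorem generic (b : Ω) (W : FreeGroup (Cn ⊕ Cn))
    (h : ∀ k, FreeGroup.lift (Sum.elim (d.τ (b, k)) (fun y => d.κ (b, k) (d.c k y))) W = 1)
    (x : Ω × ℕ) (v : Cn → U) (hv : ∀ y, v y ∈ d.V x) :
    FreeGroup.lift (Sum.elim (d.τ x) v) W = 1 := by
  classical
  let Ψ : (C(Cn, U) × C(Cn, U)) × C(Cn, Cn) → U := fun z =>
    FreeGroup.lift (Sum.elim z.1.1 (fun y => z.1.2 (z.2 y))) W
  have hΨ : Continuous Ψ := by
    apply continuous_lift
    rintro (σ | y)
    · show Continuous fun z : (C(Cn, U) × C(Cn, U)) × C(Cn, Cn) => z.1.1 σ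
      fun_prop
    · show Continuous fun z : (C(Cn, U) × C(Cn, U)) × C(Cn, Cn) => z.1.2 (z.2 y)
      fun_prop
  have hcl : IsClosed {z | Ψ z = 1} := isClosed_singleton.preimage hΨ
  have hsub : closure (Set.range fun k => ((d.τ (b, k), d.κ (b, k)), d.c k)) ⊆ {z | Ψ z = 1} := by
    apply closure_minimal _ hcl
    rintro _ ⟨k, rfl⟩
    exact h k
  obtain ⟨F, hF⟩ := exists_support W
  have h1 : ∀ y, ∃ z, d.κ x z = v y := fun y => by
    have : v y ∈ (d.V x : Set U) := hv y
    rw [← d.hκ] at this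
    exact this
  choose z hz using h1
  let F' : Finset Cn := F.biUnion (Sum.elim (fun _ => ∅) (fun y => {y}))
  obtain ⟨f, hf⟩ := exists_interp F' z
  have h2 : Ψ ((d.τ x, d.κ x), f) = 1 := hsub (d.dense b x f)
  obtain ⟨W', hW'⟩ := hF {a // a ∈ F} Subtype.val (fun a ha => ⟨⟨a, ha⟩, rfl⟩)
  rw [← h2]
  show _ = FreeGroup.lift (Sum.elim (d.τ x) (fun y => d.κ x (f y))) W
  rw [← hW', lift_map, lift_map]
  congr 2
  ext ⟨a, ha⟩
  rcases a with σ | y
  · rfl
  · have hy : y ∈ F' := by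
      simp only [F', Finset.mem_biUnion]
      exact ⟨Sum.inr y, ha, by simp⟩
    show v y = d.κ x (f y)
    rw [hf y hy, hz]

theorem generic₂ (b : Ω) (W W' : FreeGroup (Cn ⊕ Cn))
    (h : ∀ k, FreeGroup.lift (Sum.elim (d.τ (b, k)) (fun y => d.κ (b, k) (d.c k y))) W =
      FreeGroup.lift (Sum.elim (d.τ (b, k)) (fun y => d.κ (b, k) (d.c k y))) W')
    (x : Ω × ℕ) (v : Cn → U) (hv : ∀ y, v y ∈ d.V x) :
    FreeGroup.lift (Sum.elim (d.τ x) v) W = FreeGroup.lift (Sum.elim (d.τ x) v) W' := by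
  have := d.generic b (W * W'⁻¹) (fun k => by rw [map_mul, map_inv, h k, mul_inv_cancel]) x v hv
  rw [map_mul, map_inv] at this
  exact mul_inv_eq_one.1 this

end Data

end Pool.Agent.H746.GD
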