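import Pool.Agent.H746.GD.Gen

set_option autoImplicit false

/-!
# Compact subsets of the generated subgroup are second countable
-/

open Set Filter Topology

namespace Pool.Agent.H746.GD

variable {Ω U : Type} [LinearOrder Ω] [TopologicalSpace U] [Group U] [IsTopologicalGroup U]
  [T2Space U]

namespace Data

variable (d : Data Ω U)

/-- value at coordinate `x` of a word in finitely many generic and countably many lift letters -/
noncomputable def wv {m : ℕ} (w : FreeGroup (ℕ ⊕ Fin m)) (x : Ω × ℕ) (σ : ℕ → Cn) (v : Fin m → U) :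
    U := FreeGroup.lift (Sum.elim (fun n => d.τ x (σ n)) v) w

/-- the element of the product given by a word -/
noncomputable def wp {m : ℕ} (w : FreeGroup (ℕ ⊕ Fin m)) (σ : ℕ → Cn) (ξ : Fin m → Xi Ω) :
    Ω × ℕ → U := fun x => d.wv w x σ (fun j => d.X (ξ j) x)

omit [T2Space U] [IsTopologicalGroup U] in
theorem wp_eq {m : ℕ} (w : FreeGroup (ℕ ⊕ Fin m)) (σ : ℕ → Cn) (ξ : Fin m → Xi Ω) :
    d.wp w σ ξ = d.wd (FreeGroup.map (Sum.map σ ξ) w) := by
  ext x
  rw [wd_apply, lift_map]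
  unfold wp wv
  congr 2
  ext (a | a) <;> rfl

omit [T2Space U] [IsTopologicalGroup U] in
theorem exists_wp (g : Ω × ℕ → U) (hg : g ∈ d.D) :
    ∃ (m : ℕ) (w : FreeGroup (ℕ ⊕ Fin m)) (σ : ℕ → Cn) (ξ : Fin m → Xi Ω), g = d.wp w σ ξ := by
  classical
  obtain ⟨W, rfl⟩ := hg
  obtain ⟨F, hF⟩ := exists_support W
  obtain ⟨σ, hσ⟩ := ((F.finite_toSet.preimage
    (Sum.inl_injective (α := Cn) (β := Xi Ω)).injOn).countable.insert default).exists_eq_range
      (insert_nonempty _ _)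
  obtain ⟨m, ξ, hξ⟩ := (F.finite_toSet.preimage
    (Sum.inr_injective (α := Cn) (β := Xi Ω)).injOn).fin_embedding
  obtain ⟨w, hw⟩ := hF (ℕ ⊕ Fin m) (Sum.map σ ξ) (by
    rintro (a | a) ha
    · have : a ∈ range σ := by rw [← hσ]; exact mem_insert_of_mem _ ha
      obtain ⟨n, hn⟩ := this
      exact ⟨Sum.inl n, by simp [hn]⟩
    · have : a ∈ range ξ := by rw [hξ]; exact ha
      obtain ⟨n, hn⟩ := this
      exact ⟨Sum.inr n, by simp [hn]⟩)
  exact ⟨m, w, σ, ξ, by rw [wp_eq, hw]⟩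

/-- the variable `j` is essential in the word `w` with parameters `σ` -/
def Ess {m : ℕ} (w : FreeGroup (ℕ ⊕ Fin m)) (σ : ℕ → Cn) (j : Fin m) : Prop :=
  ∃ x, ∃ v : Fin m → U, (∀ i, v i ∈ d.V x) ∧ d.wv w x σ v ≠ d.wv w x σ (Function.update v j 1)

theorem isOpen_ess {m : ℕ} (w : FreeGroup (ℕ ⊕ Fin m)) (j : Fin m) :
    IsOpen {σ : ℕ → Cn | d.Ess w σ j} := by
  have hc : ∀ (x : Ω × ℕ) (v : Fin m → U), Continuous fun σ : ℕ → Cn => d.wv w x σ v := by
    intro x v
    apply continuous_lift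
    rintro (n | i)
    · show Continuous fun σ : ℕ → Cn => d.τ x (σ n)
      fun_prop
    · exact continuous_const
  have : {σ : ℕ → Cn | d.Ess w σ j} = ⋃ x, ⋃ v : {v : Fin m → U // ∀ i, v i ∈ d.V x},
      {σ | d.wv w x σ v.1 ≠ d.wv w x σ (Function.update v.1 j 1)} := by
    ext σ
    simp only [Ess, mem_ofPred_eq, mem_iUnion, Subtype.exists, exists_prop]
  rw [this]
  exact isOpen_iUnion fun x => isOpen_iUnion fun v => isOpen_ne_fun (hc _ _) (hc _ _)

/-- removing a variable -/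
noncomputable def rem {m : ℕ} (j : Fin (m + 1)) (u : FreeGroup (ℕ ⊕ Fin m)) :
    FreeGroup (ℕ ⊕ Fin (m + 1)) →* FreeGroup (ℕ ⊕ Fin m) :=
  FreeGroup.lift (Sum.elim (fun n => FreeGroup.of (Sum.inl n))
    (j.insertNth (α := fun _ => FreeGroup (ℕ ⊕ Fin m)) u fun i => FreeGroup.of (Sum.inr i)))

omit [T2Space U] [IsTopologicalGroup U] in
theorem wv_rem {m : ℕ} (j : Fin (m + 1)) (u : FreeGroup (ℕ ⊕ Fin m)) (x : Ω × ℕ) (σ : ℕ → Cn)
    (v : Fin m → U) (w : FreeGroup (ℕ ⊕ Fin (m + 1))) :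
    d.wv (rem j u w) x σ v =
      d.wv w x σ (j.insertNth (α := fun _ => U) (d.wv u x σ v) v) := by
  have h : (FreeGroup.lift (Sum.elim (fun n => d.τ x (σ n)) v)).comp (rem j u) =
      FreeGroup.lift (Sum.elim (fun n => d.τ x (σ n))
        (j.insertNth (α := fun _ => U) (d.wv u x σ v) v)) := by
    apply FreeGroup.ext_hom
    rintro (n | i)
    · simp [rem]
    · rcases Fin.eq_self_or_eq_succAbove j i with rfl | ⟨i', rfl⟩
      · simp [rem, wv]
      · simp [rem]
  exact DFunLike.congr_fun h w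

omit [IsTopologicalGroup U] [T2Space U] in
/-- Every element has a representation in which all variables are essential and the labels are
distinct. -/
theorem exists_wp_ess (g : Ω × ℕ → U) (hg : g ∈ d.D) :
    ∃ (m : ℕ) (w : FreeGroup (ℕ ⊕ Fin m)) (σ : ℕ → Cn) (ξ : Fin m → Xi Ω), g = d.wp w σ ξ ∧
      (∀ j, d.Ess w σ j) ∧ Function.Injective ξ := by
  classical
  have hex := d.exists_wp g hg
  obtain ⟨w, σ, ξ, hw⟩ := Nat.find_spec hex
  refine ⟨Nat.find hex, w, σ, ξ, hw, ?_, ?_⟩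
  · intro j
    by_contra hj
    have hmin := fun k hk => Nat.find_min hex (m := k) hk
    revert w σ ξ j hmin
    generalize Nat.find hex = m
    intro w σ ξ hw j hj hmin
    obtain _ | m := m
    · exact j.elim0
    apply hmin m (Nat.lt_succ_self m)
    refine ⟨rem j 1 w, σ, fun i => ξ (j.succAbove i), ?_⟩
    rw [hw]
    ext x
    unfold wp
    rw [wv_rem]
    unfold Ess at hj
    push Not at hj
    rw [hj x (fun i => d.X (ξ i) x) (fun i => d.X_mem _ _)]
    congr 1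
    ext i
    rcases Fin.eq_self_or_eq_succAbove j i with rfl | ⟨i', rfl⟩
    · simp [wv]
    · simp
  · intro a b hab
    by_contra hne
    have hmin := fun k hk => Nat.find_min hex (m := k) hk
    revert w σ ξ a b hmin
    generalize Nat.find hex = m
    intro w σ ξ hw a b hab hne hmin
    obtain _ | m := m
    · exact a.elim0
    rcases Fin.eq_self_or_eq_succAbove b a with h | ⟨a', rfl⟩
    · exact hne h
    apply hmin m (Nat.lt_succ_self m)
    refine ⟨rem b (FreeGroup.of (Sum.inr a')) w, σ, fun i => ξ (b.succAbove i), ?_⟩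
    rw [hw]
    ext x
    unfold wp
    rw [wv_rem]
    congr 1
    ext i
    rcases Fin.eq_self_or_eq_succAbove b i with rfl | ⟨i', rfl⟩
    · simp [wv, hab]
    · simp

theorem closure_sub (hb : ∀ A : Set Ω, A.Countable → ∃ b, ∀ a ∈ A, a ≤ b)
    (C : Set (Ω × ℕ → U)) (hC : IsCompact C) (hCD : C ⊆ d.D) {m : ℕ}
    (w : FreeGroup (ℕ ⊕ Fin m)) (K : Set ((ℕ → Cn) × (Fin m → Cn))) (hK : IsClosed K)
    (hKE : ∀ p ∈ K, (∀ j, d.Ess w p.1 j) ∧ Function.Injective p.2) :
    ∀ ρ ∈ closure {ρ : Fin m → Cn | ∃ (σ : ℕ → Cn) (ξ : Fin m → Xi Ω), ρ = (fun j => d.r (ξ j)) ∧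
      (σ, ρ) ∈ K ∧ d.wp w σ ξ ∈ C}, ∀ j, ρ j ∈ range d.r := by
  classical
  intro ρ hρ j
  obtain ⟨u, hu, hulim⟩ := mem_closure_iff_seq_limit.1 hρ
  choose σ ξ hξ hKm hwC using hu
  -- an ultrafilter
  let 𝓕 : Ultrafilter ℕ := Ultrafilter.of atTop
  have h𝓕 : (𝓕 : Filter ℕ) ≤ atTop := Ultrafilter.of_le atTop
  have hu' : Tendsto u 𝓕 (𝓝 ρ) := hulim.mono_left h𝓕
  obtain ⟨σs, -, hσs⟩ := (isCompact_univ (X := ℕ → Cn)).ultrafilter_le_nhds (𝓕.map σ) (by simp)
  have hσ' : Tendsto σ 𝓕 (𝓝 σs) := hσs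
  have hKs : (σs, ρ) ∈ K :=
    hK.mem_of_tendsto (hσ'.prodMk_nhds hu') (Eventually.of_forall fun n => hKm n)
  obtain ⟨ds, hds, hdl⟩ := hC.ultrafilter_le_nhds (𝓕.map fun n => d.wp w (σ n) (ξ n)) (by
    rw [Ultrafilter.coe_map, le_principal_iff, Filter.mem_map]
    exact Filter.univ_mem' hwC)
  have hdl' : Tendsto (fun n => d.wp w (σ n) (ξ n)) 𝓕 (𝓝 ds) := hdl
  -- a bound for the labels
  obtain ⟨b, hbb⟩ := hb (range fun p : ℕ × Fin m => (ξ p.1 p.2).1) (countable_range _)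
  have hbb' : ∀ n j, (ξ n j).1 ≤ b := fun n j => hbb _ ⟨(n, j), rfl⟩
  have hval : ∀ b' k, b ≤ b' → ds (b', k) =
      d.wv w (b', k) σs (fun j => d.κ (b', k) (d.c k (ρ j))) := by
    intro b' k hb'
    have h1 : Tendsto (fun n => d.wp w (σ n) (ξ n) (b', k)) 𝓕 (𝓝 (ds (b', k))) :=
      ((continuous_apply (b', k)).tendsto ds).comp hdl'
    have h2 : Tendsto (fun n => d.wp w (σ n) (ξ n) (b', k)) 𝓕
        (𝓝 (d.wv w (b', k) σs (fun j => d.κ (b', k) (d.c k (ρ j))))) := by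
      have h3 : (fun n => d.wp w (σ n) (ξ n) (b', k)) = fun n =>
          FreeGroup.lift (Sum.elim (fun i => d.τ (b', k) (σ n i))
            (fun j => d.κ (b', k) (d.c k (u n j)))) w := by
        ext n
        show FreeGroup.lift _ w = _
        congr 2
        ext (i | i)
        · rfl
        · show d.X (ξ n i) (b', k) = d.κ (b', k) (d.c k (u n i))
          rw [d.X_of_le _ _ ((hbb' n i).trans hb'), hξ n]
      rw [h3]
      apply tendsto_lift
      rintro (i | i)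
      · show Tendsto (fun n => d.τ (b', k) (σ n i)) 𝓕 (𝓝 (d.τ (b', k) (σs i)))
        exact ((show Continuous fun s : ℕ → Cn => d.τ (b', k) (s i) by fun_prop).tendsto σs).comp
          hσ'
      · show Tendsto (fun n => d.κ (b', k) (d.c k (u n i))) 𝓕 (𝓝 (d.κ (b', k) (d.c k (ρ i))))
        exact ((show Continuous fun s : Fin m → Cn => d.κ (b', k) (d.c k (s i)) by
          fun_prop).tendsto ρ).comp hu'
    exact tendsto_nhds_unique h1 h2
  -- the limit is in the subgroup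
  obtain ⟨W', hW'⟩ := hCD hds
  obtain ⟨F, hF⟩ := exists_support W'
  obtain ⟨b₂, hb₂⟩ := hb ((F.image (Sum.elim (fun _ => b) (fun ξ => ξ.1)) : Finset Ω) : Set Ω)
    (Finset.countable_toSet _)
  have hb₂' : ∀ ξ : Xi Ω, Sum.inr ξ ∈ F → ξ.1 ≤ b₂ := fun ξ hξ => hb₂ _ (by
    simp only [Finset.coe_image, mem_image]
    exact ⟨Sum.inr ξ, hξ, rfl⟩)
  let b₃ := max b b₂
  let W₁ : FreeGroup (Cn ⊕ Cn) := FreeGroup.map (Sum.map σs ρ) w
  let W₂ : FreeGroup (Cn ⊕ Cn) := FreeGroup.map (Sum.map id d.r) W'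
  have hgen : ∀ (x : Ω × ℕ) (v : Cn → U), (∀ y, v y ∈ d.V x) →
      FreeGroup.lift (Sum.elim (d.τ x) v) W₁ = FreeGroup.lift (Sum.elim (d.τ x) v) W₂ := by
    apply d.generic₂ b₃
    intro k
    have e1 : FreeGroup.lift (Sum.elim (d.τ (b₃, k)) (fun y => d.κ (b₃, k) (d.c k y))) W₁ =
        ds (b₃, k) := by
      rw [hval b₃ k (le_max_left _ _)]
      show _ = FreeGroup.lift _ w
      rw [lift_map]
      congr 2
      ext (i | i) <;> rfl
    have e2 : FreeGroup.lift (Sum.elim (d.τ (b₃, k)) (fun y => d.κ (b₃, k) (d.c k y))) W₂ =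
        ds (b₃, k) := by
      rw [← hW', wd_apply, lift_map]
      obtain ⟨W'', hW''⟩ := hF {a // a ∈ F} Subtype.val (fun a ha => ⟨⟨a, ha⟩, rfl⟩)
      rw [← hW'', lift_map, lift_map]
      congr 2
      ext ⟨a, ha⟩
      rcases a with a | a
      · rfl
      · show d.κ (b₃, k) (d.c k (d.r a)) = d.X a (b₃, k)
        rw [d.X_of_le _ _ ((hb₂' a ha).trans (le_max_right _ _))]
    rw [e1, e2]
  by_contra hj
  obtain ⟨hess, hinj⟩ := hKE _ hKs
  obtain ⟨x, v₀, hv₀, hne⟩ := hess j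
  simp only at hne hinj
  -- extend the values to all letters
  let v : Cn → U := fun y => if h : ∃ i, ρ i = y then v₀ h.choose else 1
  have hv : ∀ i, v (ρ i) = v₀ i := fun i => by
    have hex : ∃ i', ρ i' = ρ i := ⟨i, rfl⟩
    have : v (ρ i) = v₀ hex.choose := dif_pos hex
    rw [this, hinj hex.choose_spec]
  have hvV : ∀ y, v y ∈ d.V x := fun y => by
    by_cases hex : ∃ i', ρ i' = y
    · have : v y = v₀ hex.choose := dif_pos hex
      rw [this]; exact hv₀ _
    · have : v y = 1 := dif_neg hex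
      rw [this]; exact one_mem _
  let v' : Cn → U := Function.update v (ρ j) 1
  have hv'V : ∀ y, v' y ∈ d.V x := fun y => by
    by_cases h : y = ρ j
    · rw [h]; simp [v', one_mem]
    · simp only [v', Function.update_of_ne h]; exact hvV y
  have hv' : ∀ i, v' (ρ i) = Function.update v₀ j 1 i := fun i => by
    by_cases h : i = j
    · rw [h]; simp [v']
    · have : ρ i ≠ ρ j := fun h' => h (hinj h')
      simp only [v', Function.update_of_ne h, Function.update_of_ne this]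
      exact hv i
  apply hne
  have e1 : d.wv w x σs v₀ = FreeGroup.lift (Sum.elim (d.τ x) v) W₁ := by
    show FreeGroup.lift _ w = _
    rw [lift_map]
    congr 2
    ext (i | i)
    · rfl
    · exact (hv i).symm
  have e2 : d.wv w x σs (Function.update v₀ j 1) = FreeGroup.lift (Sum.elim (d.τ x) v') W₁ := by
    show FreeGroup.lift _ w = _
    rw [lift_map]
    congr 2
    ext (i | i)
    · rfl
    · exact (hv' i).symm
  rw [e1, e2, hgen x v hvV, hgen x v' hv'V]
  show FreeGroup.lift _ (FreeGroup.map _ _) = FreeGroup.lift _ (FreeGroup.map _ _)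
  rw [lift_map, lift_map]
  congr 2
  ext (i | i)
  · rfl
  · show v (d.r i) = v' (d.r i)
    have : d.r i ≠ ρ j := fun h => hj ⟨i, h⟩
    simp only [v', Function.update_of_ne this]

end Data

end Pool.Agent.H746.GD
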