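import Mathlib

set_option autoImplicit false

/-!
# The first uncountable well ordering
-/

open Cardinal Set

namespace Pool.Agent.H746.GD

/-- The first uncountable well ordered type. -/
abbrev Om : Type := (Cardinal.aleph 1).ord.ToType

theorem mk_Om : #Om = Cardinal.aleph 1 := Cardinal.mk_ord_toType _

theorem countable_Iio (a : Om) : (Iio a).Countable := by
  have h : #(Iio a) < Cardinal.aleph 1 := by
    have := Cardinal.mk_Iio_lt a (by rw [mk_Om]; simp)
    rwa [mk_Om] at this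
  rw [← Cardinal.le_aleph0_iff_set_countable, ← Order.lt_succ_iff, Cardinal.succ_aleph0]
  exact h

theorem uncountable_Om : ¬ (univ : Set Om).Countable := by
  intro h
  rw [← Cardinal.le_aleph0_iff_set_countable, Cardinal.mk_univ, mk_Om] at h
  exact absurd h (not_le.2 Cardinal.aleph0_lt_aleph_one)

theorem exists_gt (A : Set Om) (hA : A.Countable) : ∃ b, ∀ a ∈ A, a < b := by
  by_contra hcon
  push Not at hcon
  apply uncountable_Om
  have h1 : (⋃ a ∈ A, Iic a).Countable := by
    apply hA.biUnion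
    intro a _
    have : Iic a = insert a (Iio a) := by
      ext x
      simp [le_iff_eq_or_lt]
    rw [this]
    exact (countable_Iio a).insert a
  apply h1.mono
  intro b _
  obtain ⟨a, ha, hab⟩ := hcon b
  exact mem_biUnion ha hab

instance : Nonempty Om := by
  obtain ⟨b, -⟩ := exists_gt ∅ countable_empty
  exact ⟨b⟩

theorem mk_Om_le : #Om ≤ 𝔠 := by
  rw [mk_Om]
  exact Cardinal.aleph_one_le_continuum

theorem mk_Om_prod_le {T : Type} {A : Set T} (hA : ¬ A.Countable) : #(Om × ℕ) ≤ #A := by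
  have h1 : #(Om × ℕ) = Cardinal.aleph 1 := by
    rw [Cardinal.mk_prod]
    simp only [Cardinal.lift_id, mk_Om, Cardinal.mk_nat]
    exact Cardinal.mul_eq_left (Cardinal.aleph0_le_aleph 1) (Cardinal.aleph0_le_aleph 1)
      Cardinal.aleph0_ne_zero
  rw [h1, ← Cardinal.succ_aleph0, Order.succ_le_iff]
  by_contra hcon
  exact hA (Cardinal.le_aleph0_iff_set_countable.1 (not_lt.1 hcon))

theorem mk_Xi_le : #(Om × (ℕ → (ℕ → Bool))) ≤ 𝔠 := by
  rw [Cardinal.mk_prod]
  simp only [Cardinal.lift_id]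
  have h2 : #(ℕ → (ℕ → Bool)) ≤ 𝔠 := by
    simp
  exact Cardinal.mul_le_of_le Cardinal.aleph0_le_continuum mk_Om_le h2

/-- A regressive-type argument: if each limit element `a` has an `f a < a`, then some bounded
fibre is unbounded. -/
theorem exists_fibre (f : Om → Om)
    (hf : ∀ a : Om, (∃ γ, γ < a) → (∀ γ < a, ∃ γ' < a, γ < γ') → f a < a) :
    ∃ β : Om, ∀ γ, ∃ a, γ < a ∧ (∀ γ < a, ∃ γ' < a, γ < γ') ∧ f a ≤ β := by
  by_contra hcon
  push Not at hcon
  choose h hh using hcon
  have hstep : ∀ x : Om, ∃ y, x < y ∧ h x < y := by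
    intro x
    obtain ⟨y, hy⟩ := exists_gt {x, h x} (by simp)
    exact ⟨y, hy x (by simp), hy (h x) (by simp)⟩
  choose st hst1 hst2 using hstep
  let δ : ℕ → Om := fun n => Nat.rec (Classical.arbitrary Om) (fun _ x => st x) n
  have hδ : ∀ n, δ n < δ (n + 1) := fun n => hst1 _
  have hδh : ∀ n, h (δ n) < δ (n + 1) := fun n => hst2 _
  obtain ⟨b, hb⟩ := exists_gt (range δ) (countable_range _)
  obtain ⟨d, hd, hmin⟩ := WellFounded.has_min (wellFounded_lt (α := Om)) {b | ∀ n, δ n < b}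
    ⟨b, fun n => hb _ ⟨n, rfl⟩⟩
  have hlim : ∀ γ < d, ∃ γ' < d, γ < γ' := by
    intro γ hγ
    have : γ ∉ {b | ∀ n, δ n < b} := fun h' => hmin γ h' hγ
    simp only [mem_ofPred_eq] at this
    push Not at this
    obtain ⟨n, hn⟩ := this
    exact ⟨δ (n + 1), hd (n + 1), hn.trans_lt (hδ n)⟩
  have hfd := hf d ⟨δ 0, hd 0⟩ hlim
  have : f d ∉ {b | ∀ n, δ n < b} := fun h' => hmin _ h' hfd
  simp only [mem_ofPred_eq] at this
  push Not at this
  obtain ⟨n, hn⟩ := this
  by_cases hlt : h (δ n) < d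
  · exact absurd (hh (δ n) d hlt hlim) (not_lt.2 hn)
  · exact absurd ((hδh n).trans (hd (n + 1))) (hlt)

end Pool.Agent.H746.GD
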